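import Pool.Agent.helper62.QU.Spec

open scoped MatrixGroups ContDiff Topology UpperHalfPlane
open UpperHalfPlane MeasureTheory Filter Set

namespace Pool.Agent.QU

section
variable {E : Type} [NormedAddCommGroup E] [NormedSpace ℝ E]

abbrev CA1_U : Set ℂ := {w : ℂ | 0 < w.im}

theorem CA1_open : IsOpen CA1_U := isOpen_lt continuous_const Complex.continuous_im

omit [NormedAddCommGroup E] [NormedSpace ℝ E] in
theorem CA1_val (φ : ℍ → E) (z : ℍ) : onC φ (z : ℂ) = φ z := by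
  unfold onC; rw [ofComplex_apply]

theorem CA1_mem (z : ℍ) : (z : ℂ) ∈ CA1_U := z.im_pos

theorem CA1_im {w : ℂ} (hw : w ∈ CA1_U) : (ofComplex w).im = w.im := by
  have : ((ofComplex w : ℍ) : ℂ) = w := ofComplex_apply_of_im_pos hw ▸ rfl
  rw [← UpperHalfPlane.coe_im, this]

theorem CA1_coe {w : ℂ} (hw : w ∈ CA1_U) : ((ofComplex w : ℍ) : ℂ) = w :=
  ofComplex_apply_of_im_pos hw ▸ rfl

theorem CA1_ofc {w : ℂ} (hw : w ∈ CA1_U) : ContinuousAt ofComplex w := by
  apply ofComplex.continuousAt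
  show w ∈ ofComplex.source
  have h : ofComplex.source = Set.range UpperHalfPlane.coe := by
    simp [ofComplex]
  rw [h]
  exact ⟨⟨w, hw⟩, rfl⟩

theorem CA1_cont (φ : ℍ → E) : CD 0 φ ↔ Continuous φ := by
  unfold CD
  rw [contDiffOn_zero]
  constructor
  · intro h
    have h2 : φ = fun z : ℍ => onC φ (z : ℂ) := by
      funext z; rw [CA1_val]
    rw [h2]
    exact h.comp_continuous UpperHalfPlane.continuous_coe (fun z => CA1_mem z)
  · intro h
    have h2 : ContinuousOn ofComplex CA1_U := fun w hw => (CA1_ofc hw).continuousWithinAt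
    exact h.comp_continuousOn h2

theorem CA1_dXon (φ : ℍ → E) {w : ℂ} (hw : w ∈ CA1_U) :
    onC (dX φ) w = w.im • fderiv ℝ (onC φ) w 1 := by
  unfold onC dX
  rw [CA1_im hw, CA1_coe hw]
  rfl

theorem CA1_dYon (φ : ℍ → E) {w : ℂ} (hw : w ∈ CA1_U) :
    onC (dY φ) w = w.im • fderiv ℝ (onC φ) w Complex.I := by
  unfold onC dY
  rw [CA1_im hw, CA1_coe hw]
  rfl

theorem CA1_deriv (φ : ℍ → E) (n : ℕ) (v : ℂ) (h : CD ((n : WithTop ℕ∞) + 1) φ) :
    ContDiffOn ℝ n (fun w : ℂ => w.im • fderiv ℝ (onC φ) w v) CA1_U := by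
  have h1 : ContDiffOn ℝ n (fderiv ℝ (onC φ)) CA1_U := by
    exact ((contDiffOn_succ_iff_fderiv_of_isOpen CA1_open).1 h).2.2
  have h2 : ContDiffOn ℝ n (fun w : ℂ => fderiv ℝ (onC φ) w v) CA1_U := h1.clm_apply contDiffOn_const
  exact (Complex.imCLM.contDiff.contDiffOn).smul h2

theorem CA1_diff {φ : ℍ → E} (h : CD 1 φ) (z : ℍ) : DifferentiableAt ℝ (onC φ) (z : ℂ) :=
  (h.contDiffAt (CA1_open.mem_nhds (CA1_mem z))).differentiableAt (by norm_num)

theorem CA1_supp (φ : ℍ → E) (v : ℂ) :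
    tsupport (fun z : ℍ => z.im • fderiv ℝ (onC φ) (z : ℂ) v) ⊆ tsupport φ := by
  apply closure_minimal _ (isClosed_tsupport φ)
  intro z hz
  by_contra hz'
  apply hz
  have h1 : φ =ᶠ[𝓝 z] 0 := notMem_tsupport_iff_eventuallyEq.1 hz'
  have h2 : onC φ =ᶠ[𝓝 (z : ℂ)] 0 := by
    have h3 : Tendsto ofComplex (𝓝 (z : ℂ)) (𝓝 z) := by
      have h4 : ContinuousAt ofComplex (z : ℂ) := CA1_ofc (CA1_mem z)
      have h5 : ofComplex (z : ℂ) = z := ofComplex_apply z
      unfold ContinuousAt at h4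
      rwa [h5] at h4
    have := h3.eventually h1
    filter_upwards [this] with w hw
    exact hw
  have h6 : fderiv ℝ (onC φ) (z : ℂ) = 0 := by
    rw [h2.fderiv_eq]
    simp
  show z.im • fderiv ℝ (onC φ) (z : ℂ) v = 0
  rw [h6]; simp

end

theorem CA1 : CA1_stmt := by
  intro E _ _
  refine ⟨CA1_cont, fun φ m n hmn h => h.of_le hmn, fun φ ψ n h1 h2 => h1.add h2,
    fun a φ n h1 h2 => h1.smul h2, ?_, ?_, ?_, ?_, fun c n => contDiffOn_const, ?_⟩
  · intro φ n h
    constructor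
    · exact (CA1_deriv φ n 1 h).congr (fun w hw => CA1_dXon φ hw)
    · exact (CA1_deriv φ n Complex.I h).congr (fun w hw => CA1_dYon φ hw)
  · intro φ ψ h1 h2 z
    have h3 : onC (fun z => φ z + ψ z) = fun w => onC φ w + onC ψ w := rfl
    unfold dX dY
    rw [h3, fderiv_fun_add (CA1_diff h1 z) (CA1_diff h2 z)]
    simp [smul_add]
  · intro a φ h1 h2 z
    have h3 : onC (fun z => a z • φ z) = fun w => onC a w • onC φ w := rfl
    unfold dX dY
    rw [h3, fderiv_fun_smul (CA1_diff h1 z) (CA1_diff h2 z)]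
    simp only [_root_.add_apply, _root_.smul_apply, ContinuousLinearMap.smulRight_apply,
      CA1_val, smul_add, smul_eq_mul, smul_smul]
    constructor
    · rw [mul_comm]
    · rw [mul_comm]
  · intro c z
    have h3 : onC (fun _ : ℍ => c) = fun _ => c := rfl
    unfold dX dY
    rw [h3]
    simp
  · intro φ
    exact ⟨CA1_supp φ 1, CA1_supp φ Complex.I⟩

end Pool.Agent.QU
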