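import Pool.Agent.helper62.QU.CA1

open scoped MatrixGroups ContDiff Topology UpperHalfPlane
open UpperHalfPlane MeasureTheory Filter Set

namespace Pool.Agent.QU

section
variable {E' : Type} [NormedAddCommGroup E'] [NormedSpace ℝ E']
variable {Q : Type} [NormedAddCommGroup Q] [NormedSpace ℝ Q]

/-- partial derivative in the first variable -/
noncomputable def CVS_D (g : ℂ × Q → E') (p : ℂ × Q) : ℂ →L[ℝ] E' :=
  (fderiv ℝ g p).comp (ContinuousLinearMap.inl ℝ ℂ Q)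

theorem CVS_Dsm {g : ℂ × Q → E'} {W : Set Q} (hW : IsOpen W)
    (hg : ContDiffOn ℝ ∞ g (CA1_U ×ˢ W)) : ContDiffOn ℝ ∞ (CVS_D g) (CA1_U ×ˢ W) := by
  have ho : IsOpen (CA1_U ×ˢ W) := CA1_open.prod hW
  have h1 : ContDiffOn ℝ ∞ (fderiv ℝ g) (CA1_U ×ˢ W) := by
    have h' : ContDiffOn ℝ (∞ + 1) g (CA1_U ×ˢ W) := hg
    exact ((contDiffOn_succ_iff_fderiv_of_isOpen ho).1 h').2.2
  exact h1.clm_comp contDiffOn_const

theorem CVS_Dd {g : ℂ × Q → E'} {W : Set Q} (hW : IsOpen W)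
    (hg : ContDiffOn ℝ ∞ g (CA1_U ×ˢ W)) {ζ : ℂ} (hζ : ζ ∈ CA1_U) {q : Q} (hq : q ∈ W) :
    HasFDerivAt (fun ζ => g (ζ, q)) (CVS_D g (ζ, q)) ζ := by
  have ho : IsOpen (CA1_U ×ˢ W) := CA1_open.prod hW
  have h1 : HasFDerivAt g (fderiv ℝ g (ζ, q)) (ζ, q) :=
    ((hg.contDiffAt (ho.mem_nhds ⟨hζ, hq⟩)).differentiableAt (by simp)).hasFDerivAt
  have h2 : HasFDerivAt (fun ζ : ℂ => (ζ, q)) (ContinuousLinearMap.inl ℝ ℂ Q) ζ :=
    hasFDerivAt_prodMk_left ζ q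
  exact h1.comp ζ h2

/-- locally uniform proper support -/
def CVS_P (G : ℂ → ℍ → E') : Prop := ∀ ζ₀ ∈ CA1_U, ∃ s : Set ℂ, IsOpen s ∧ ζ₀ ∈ s ∧ s ⊆ CA1_U ∧
  ∃ k : Set ℍ, IsCompact k ∧ ∀ ζ ∈ s, ∀ w, w ∉ k → G ζ w = 0

theorem CVS_PD {g : ℂ × Q → E'} {W : Set Q} (hW : IsOpen W)
    (hg : ContDiffOn ℝ ∞ g (CA1_U ×ˢ W)) {q : ℍ → Q} (hq : ∀ w, q w ∈ W)
    (hP : CVS_P (fun ζ w => g (ζ, q w))) : CVS_P (fun ζ w => CVS_D g (ζ, q w)) := by
  intro ζ₀ h0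
  obtain ⟨s, hs, h0s, hsU, k, hk, hz⟩ := hP ζ₀ h0
  refine ⟨s, hs, h0s, hsU, k, hk, fun ζ hζ w hw => ?_⟩
  have h1 := CVS_Dd hW hg (hsU hζ) (hq w)
  have h2 : HasFDerivAt (fun ζ => g (ζ, q w)) (0 : ℂ →L[ℝ] E') ζ := by
    refine (hasFDerivAt_const (0 : E') ζ).congr_of_eventuallyEq ?_
    filter_upwards [hs.mem_nhds hζ] with x hx
    exact hz x hx w hw
  exact h1.unique h2

theorem CVS_cont {g : ℂ × Q → E'} {W : Set Q}
    (hg : ContinuousOn g (CA1_U ×ˢ W)) {q : ℍ → Q} (hqc : Continuous q) (hq : ∀ w, q w ∈ W)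
    (hP : CVS_P (fun ζ w => g (ζ, q w))) :
    ContinuousOn (fun ζ => ∫ w : ℍ, g (ζ, q w)) CA1_U := by
  intro ζ₀ h0
  obtain ⟨s, hs, h0s, hsU, k, hk, hz⟩ := hP ζ₀ h0
  have := continuousOn_integral_of_compact_support (μ := (volume : Measure ℍ)) hk
    (f := fun ζ w => g (ζ, q w)) (s := s)
    (hg.comp (by fun_prop) fun p hp => ⟨hsU hp.1, hq _⟩) (fun p x hp hx => hz p hp x hx)
  exact (this.continuousAt (hs.mem_nhds h0s)).continuousWithinAt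

theorem CVS_slice {g : ℂ × Q → E'} {W : Set Q}
    (hg : ContinuousOn g (CA1_U ×ˢ W)) {q : ℍ → Q} (hqc : Continuous q) (hq : ∀ w, q w ∈ W)
    (hP : CVS_P (fun ζ w => g (ζ, q w))) {ζ : ℂ} (hζ : ζ ∈ CA1_U) :
    Continuous (fun w : ℍ => g (ζ, q w)) ∧ Integrable (fun w : ℍ => g (ζ, q w)) volume := by
  obtain ⟨s, hs, h0s, hsU, k, hk, hz⟩ := hP ζ hζ
  have hc : Continuous (fun w : ℍ => g (ζ, q w)) :=
    hg.comp_continuous (by fun_prop) fun w => ⟨hζ, hq w⟩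
  exact ⟨hc, hc.integrable_of_hasCompactSupport (HasCompactSupport.intro hk fun w hw => hz ζ h0s w hw)⟩

theorem CVS_int {g : ℂ × Q → E'} {W : Set Q} (hW : IsOpen W)
    (hg : ContDiffOn ℝ ∞ g (CA1_U ×ˢ W)) {q : ℍ → Q} (hqc : Continuous q) (hq : ∀ w, q w ∈ W)
    (hP : CVS_P (fun ζ w => g (ζ, q w))) {ζ₀ : ℂ} (h0 : ζ₀ ∈ CA1_U) :
    HasFDerivAt (fun ζ => ∫ w : ℍ, g (ζ, q w)) (∫ w : ℍ, CVS_D g (ζ₀, q w)) ζ₀ := by
  have hD := CVS_Dsm hW hg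
  have hPD := CVS_PD hW hg hq hP
  obtain ⟨s, hs, h0s, hsU, k, hk, hz⟩ := hPD ζ₀ h0
  obtain ⟨r, hr, hrs⟩ := Metric.nhds_basis_closedBall.mem_iff.mp (hs.mem_nhds h0s)
  have hcK : IsCompact (Metric.closedBall ζ₀ r ×ˢ k) := (isCompact_closedBall _ _).prod hk
  have hcon : ContinuousOn (fun p : ℂ × ℍ => CVS_D g (p.1, q p.2)) (Metric.closedBall ζ₀ r ×ˢ k) :=
    hD.continuousOn.comp (by fun_prop) fun p hp => ⟨hsU (hrs hp.1), hq _⟩
  obtain ⟨C, hC⟩ := hcK.exists_bound_of_continuousOn hcon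
  refine hasFDerivAt_integral_of_dominated_of_fderiv_le (μ := (volume : Measure ℍ))
    (F := fun ζ w => g (ζ, q w)) (F' := fun ζ w => CVS_D g (ζ, q w))
    (bound := k.indicator fun _ => C) (Metric.closedBall_mem_nhds ζ₀ hr) ?_ ?_ ?_ ?_ ?_ ?_
  · filter_upwards [CA1_open.mem_nhds h0] with ζ hζ
    exact (CVS_slice hg.continuousOn hqc hq hP hζ).1.aestronglyMeasurable
  · exact (CVS_slice hg.continuousOn hqc hq hP h0).2
  · exact (CVS_slice hD.continuousOn hqc hq hPD h0).1.aestronglyMeasurable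
  · refine Eventually.of_forall fun w ζ hζ => ?_
    by_cases hw : w ∈ k
    · rw [Set.indicator_of_mem hw]
      exact hC (ζ, w) ⟨hζ, hw⟩
    · have h9 : CVS_D g (ζ, q w) = 0 := hz ζ (hrs hζ) w hw
      show ‖CVS_D g (ζ, q w)‖ ≤ _
      rw [Set.indicator_of_notMem hw, h9, norm_zero]
  · exact (integrable_indicator_iff hk.isClosed.measurableSet).mpr
      (integrableOn_const hk.measure_lt_top.ne)
  · exact Eventually.of_forall fun w ζ hζ => CVS_Dd hW hg (hsU (hrs hζ)) (hq w)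

end

section main
variable {E : Type} [NormedAddCommGroup E] [NormedSpace ℝ E]

/-- the integrand of `conv` -/
noncomputable def CVS_g (κ : ℝ → ℝ) (p : ℂ × (ℂ × E)) : E :=
  κ (‖p.1 - p.2.1‖ ^ 2 / (2 * p.1.im * p.2.1.im)) • p.2.2

theorem CVS_gsm {κ : ℝ → ℝ} (hκ : ContDiff ℝ ∞ κ) :
    ContDiffOn ℝ ∞ (CVS_g (E := E) κ) (CA1_U ×ˢ (CA1_U ×ˢ (univ : Set E))) := by
  unfold CVS_g
  refine ContDiffOn.smul (hκ.comp_contDiffOn (ContDiffOn.div ?_ ?_ ?_)) ?_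
  · exact ((contDiff_fst.sub (contDiff_fst.comp contDiff_snd)).norm_sq ℝ).contDiffOn
  · exact ((contDiff_const.mul (Complex.imCLM.contDiff.comp contDiff_fst)).mul
      (Complex.imCLM.contDiff.comp (contDiff_fst.comp contDiff_snd))).contDiffOn
  · intro p hp
    have h1 : 0 < p.1.im := hp.1
    have h2 : 0 < p.2.1.im := hp.2.1
    positivity
  · exact (contDiff_snd.comp contDiff_snd).contDiffOn

theorem CVS_tt {ζ : ℂ} (hζ : ζ ∈ CA1_U) (w : ℍ) :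
    tt (ofComplex ζ) w = ‖ζ - (w : ℂ)‖ ^ 2 / (2 * ζ.im * (w : ℂ).im) := by
  unfold tt
  rw [CA1_coe hζ, CA1_im hζ]
  rfl

theorem CVS_gP (h1 : TTT_stmt) {κ : ℝ → ℝ} (hκ : RK κ) (f : ℍ → E) :
    CVS_P (fun ζ w => CVS_g κ (ζ, ((w : ℂ), f w))) := by
  obtain ⟨s₀, hs₀⟩ := hκ.supp
  obtain ⟨R, hR0, hR⟩ := h1.2.2.2.2.2.1 s₀
  intro ζ₀ h0
  have hco : ContinuousOn ofComplex CA1_U := fun w hw => (CA1_ofc hw).continuousWithinAt
  refine ⟨CA1_U ∩ ofComplex ⁻¹' Metric.ball (ofComplex ζ₀) 1,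
    hco.isOpen_inter_preimage CA1_open Metric.isOpen_ball, ⟨h0, Metric.mem_ball_self one_pos⟩,
    inter_subset_left, Metric.closedBall (ofComplex ζ₀) (R + 1), isCompact_closedBall _ _,
    fun ζ hζ w hw => ?_⟩
  have h3 : tt (ofComplex ζ) w > s₀ := by
    by_contra hc
    apply hw
    have h4 := hR _ _ (not_lt.mp hc)
    have h5 : dist (ofComplex ζ) (ofComplex ζ₀) < 1 := hζ.2
    have h6 := dist_triangle w (ofComplex ζ) (ofComplex ζ₀)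
    rw [dist_comm w (ofComplex ζ)] at h6
    rw [Metric.mem_closedBall]
    linarith
  show κ (‖ζ - (w : ℂ)‖ ^ 2 / (2 * ζ.im * (w : ℂ).im)) • f w = 0
  rw [← CVS_tt hζ.1, hs₀ _ h3.le, zero_smul]

theorem CVS_on (κ : ℝ → ℝ) (f : ℍ → E) {ζ : ℂ} (hζ : ζ ∈ CA1_U) :
    onC (conv κ f) ζ = ∫ w : ℍ, CVS_g κ (ζ, ((w : ℂ), f w)) := by
  unfold onC conv CVS_g
  simp_rw [CVS_tt hζ]

end main

theorem CVS (h1 : TTT_stmt) (_h2 : CA1_stmt) (h3 : LAK_stmt) : CVS_stmt := by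
  intro E _ _ _ κ f hκ hf
  have hW : IsOpen (CA1_U ×ˢ (univ : Set E)) := CA1_open.prod isOpen_univ
  set q : ℍ → ℂ × E := fun w => ((w : ℂ), f w) with hqd
  have hqc : Continuous q := UpperHalfPlane.continuous_coe.prodMk hf
  have hq : ∀ w, q w ∈ CA1_U ×ˢ (univ : Set E) := fun w => ⟨CA1_mem w, mem_univ _⟩
  have g0 : ContDiffOn ℝ ∞ (CVS_g (E := E) κ) (CA1_U ×ˢ (CA1_U ×ˢ (univ : Set E))) :=
    CVS_gsm hκ.smooth
  have g1 := CVS_Dsm hW g0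
  have g2 := CVS_Dsm hW g1
  have P0 : CVS_P (fun ζ w => CVS_g κ (ζ, q w)) := CVS_gP h1 hκ f
  have P1 := CVS_PD hW g0 hq P0
  have P2 := CVS_PD hW g1 hq P1
  have d0 : ∀ ζ ∈ CA1_U, HasFDerivAt (onC (conv κ f))
      (∫ w : ℍ, CVS_D (CVS_g κ) (ζ, q w)) ζ := by
    intro ζ hζ
    refine (CVS_int hW g0 hqc hq P0 hζ).congr_of_eventuallyEq ?_
    filter_upwards [CA1_open.mem_nhds hζ] with x hx
    exact CVS_on κ f hx
  have d1 : ∀ ζ ∈ CA1_U, HasFDerivAt (fderiv ℝ (onC (conv κ f)))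
      (∫ w : ℍ, CVS_D (CVS_D (CVS_g κ)) (ζ, q w)) ζ := by
    intro ζ hζ
    refine (CVS_int hW g1 hqc hq P1 hζ).congr_of_eventuallyEq ?_
    filter_upwards [CA1_open.mem_nhds hζ] with x hx
    exact (d0 x hx).fderiv
  have c2 := CVS_cont g2.continuousOn hqc hq P2
  -- the slices
  have s0 : ∀ ζ ∈ CA1_U, ∀ w : ℍ, ∀ v : ℂ, CVS_D (CVS_g κ) (ζ, q w) v =
      fderiv ℝ (onC (fun z' => κ (tt z' w))) ζ v • f w := by
    intro ζ hζ w v
    have hd := CVS_Dd hW g0 hζ (hq w)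
    have hcd : ContDiffOn ℝ 2 (onC (fun z' => κ (tt z' w))) CA1_U :=
      h3.1 κ 2 w (hκ.smooth.of_le (WithTop.coe_le_coe.2 (le_top : (2 : ℕ∞) ≤ ⊤)))
    have hd2 : HasFDerivAt (onC (fun z' => κ (tt z' w)))
        (fderiv ℝ (onC (fun z' => κ (tt z' w))) ζ) ζ :=
      ((hcd.contDiffAt (CA1_open.mem_nhds hζ)).differentiableAt (by norm_num)).hasFDerivAt
    have hd3 := hd2.smul_const (f w)
    have hd4 : HasFDerivAt (fun ζ => CVS_g κ (ζ, q w))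
        ((fderiv ℝ (onC (fun z' => κ (tt z' w))) ζ).smulRight (f w)) ζ := by
      refine hd3.congr_of_eventuallyEq ?_
      filter_upwards [CA1_open.mem_nhds hζ] with x hx
      show κ (‖x - (w : ℂ)‖ ^ 2 / (2 * x.im * (w : ℂ).im)) • f w = _
      rw [← CVS_tt hx]
      rfl
    rw [hd.unique hd4]
    rfl
  have s1 : ∀ ζ ∈ CA1_U, ∀ w : ℍ, ∀ v v' : ℂ, CVS_D (CVS_D (CVS_g κ)) (ζ, q w) v v' =
      fderiv ℝ (fderiv ℝ (onC (fun z' => κ (tt z' w)))) ζ v v' • f w := by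
    intro ζ hζ w v v'
    have hd := CVS_Dd hW g1 hζ (hq w)
    have hdv : HasFDerivAt (fun ζ => CVS_D (CVS_g κ) (ζ, q w) v')
        ((ContinuousLinearMap.apply ℝ E v').comp (CVS_D (CVS_D (CVS_g κ)) (ζ, q w))) ζ :=
      (ContinuousLinearMap.apply ℝ E v').hasFDerivAt.comp ζ hd
    have hcd : ContDiffOn ℝ 2 (onC (fun z' => κ (tt z' w))) CA1_U :=
      h3.1 κ 2 w (hκ.smooth.of_le (WithTop.coe_le_coe.2 (le_top : (2 : ℕ∞) ≤ ⊤)))
    have hcd1 : ContDiffOn ℝ 1 (fderiv ℝ (onC (fun z' => κ (tt z' w)))) CA1_U := by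
      have h' : ContDiffOn ℝ (1 + 1) (onC (fun z' => κ (tt z' w))) CA1_U := hcd.of_le (by norm_num)
      exact ((contDiffOn_succ_iff_fderiv_of_isOpen CA1_open).1 h').2.2
    have hd2 : HasFDerivAt (fderiv ℝ (onC (fun z' => κ (tt z' w))))
        (fderiv ℝ (fderiv ℝ (onC (fun z' => κ (tt z' w)))) ζ) ζ :=
      ((hcd1.contDiffAt (CA1_open.mem_nhds hζ)).differentiableAt (by norm_num)).hasFDerivAt
    have hd3 := ((ContinuousLinearMap.apply ℝ ℝ v').hasFDerivAt.comp ζ hd2).smul_const (f w)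
    have hd4 : HasFDerivAt (fun ζ => CVS_D (CVS_g κ) (ζ, q w) v')
        (((ContinuousLinearMap.apply ℝ ℝ v').comp
          (fderiv ℝ (fderiv ℝ (onC (fun z' => κ (tt z' w)))) ζ)).smulRight (f w)) ζ := by
      refine hd3.congr_of_eventuallyEq ?_
      filter_upwards [CA1_open.mem_nhds hζ] with x hx
      rw [s0 x hx]
      rfl
    have h5 := hdv.unique hd4
    have h6 := congrArg (fun L : ℂ →L[ℝ] E => L v) h5
    exact h6
  have i1 : ∀ ζ ∈ CA1_U, Integrable (fun w : ℍ => CVS_D (CVS_g κ) (ζ, q w)) volume :=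
    fun ζ hζ => (CVS_slice g1.continuousOn hqc hq P1 hζ).2
  have i2 : ∀ ζ ∈ CA1_U, Integrable (fun w : ℍ => CVS_D (CVS_D (CVS_g κ)) (ζ, q w)) volume :=
    fun ζ hζ => (CVS_slice g2.continuousOn hqc hq P2 hζ).2
  have A2 : ∀ (z : ℍ) (v : ℂ), fderiv ℝ (onC (conv κ f)) (z : ℂ) v =
      ∫ w : ℍ, fderiv ℝ (onC (fun z' => κ (tt z' w))) (z : ℂ) v • f w := by
    intro z v
    rw [(d0 z (CA1_mem z)).fderiv, ContinuousLinearMap.integral_apply (i1 z (CA1_mem z))]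
    exact integral_congr_ae (Eventually.of_forall fun w => s0 z (CA1_mem z) w v)
  have j2 : ∀ (z : ℍ) (v v' : ℂ), Integrable (fun w : ℍ =>
      fderiv ℝ (fderiv ℝ (onC (fun z' => κ (tt z' w)))) (z : ℂ) v v' • f w) volume := by
    intro z v v'
    have := (i2 z (CA1_mem z))
    have h7 : Integrable (fun w : ℍ => ((ContinuousLinearMap.apply ℝ E v').comp
        (ContinuousLinearMap.apply ℝ (ℂ →L[ℝ] E) v)) (CVS_D (CVS_D (CVS_g κ)) ((z : ℂ), q w))) volume :=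
      ContinuousLinearMap.integrable_comp _ this
    exact h7.congr (Eventually.of_forall fun w => s1 z (CA1_mem z) w v v')
  have A3 : ∀ (z : ℍ) (v v' : ℂ), fderiv ℝ (fderiv ℝ (onC (conv κ f))) (z : ℂ) v v' =
      ∫ w : ℍ, fderiv ℝ (fderiv ℝ (onC (fun z' => κ (tt z' w)))) (z : ℂ) v v' • f w := by
    intro z v v'
    have h8 := ContinuousLinearMap.integral_comp_comm (((ContinuousLinearMap.apply ℝ E v').comp
        (ContinuousLinearMap.apply ℝ (ℂ →L[ℝ] E) v))) (i2 z (CA1_mem z))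
    rw [(d1 z (CA1_mem z)).fderiv]
    refine Eq.trans h8.symm ?_
    exact integral_congr_ae (Eventually.of_forall fun w => s1 z (CA1_mem z) w v v')
  refine ⟨?_, A2, A3, ?_⟩
  · show ContDiffOn ℝ 2 (onC (conv κ f)) CA1_U
    have e2 : (2 : WithTop ℕ∞) = 1 + 1 := by norm_num
    rw [e2, contDiffOn_succ_iff_fderiv_of_isOpen CA1_open]
    refine ⟨fun ζ hζ => (d0 ζ hζ).differentiableAt.differentiableWithinAt, by simp, ?_⟩
    have e1 : (1 : WithTop ℕ∞) = 0 + 1 := by norm_num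
    rw [e1, contDiffOn_succ_iff_fderiv_of_isOpen CA1_open]
    refine ⟨fun ζ hζ => (d1 ζ hζ).differentiableAt.differentiableWithinAt, by simp, ?_⟩
    rw [contDiffOn_zero]
    refine c2.congr fun ζ hζ => ?_
    exact (d1 ζ hζ).fderiv
  · intro z
    have e : ∀ w : ℍ, LL κ (tt z w) • f w = -(z.im ^ 2) •
        (fderiv ℝ (fderiv ℝ (onC (fun z' => κ (tt z' w)))) (z : ℂ) 1 1 • f w +
         fderiv ℝ (fderiv ℝ (onC (fun z' => κ (tt z' w)))) (z : ℂ) Complex.I Complex.I • f w) := by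
      intro w
      rw [← h3.2.1 κ w z (hκ.smooth.of_le (WithTop.coe_le_coe.2 (le_top : (2 : ℕ∞) ≤ ⊤))), ← add_smul, smul_smul]
      rfl
    unfold conv
    simp_rw [e]
    rw [integral_smul, integral_add (j2 z 1 1) (j2 z Complex.I Complex.I), ← A3, ← A3]
    rfl

end Pool.Agent.QU
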