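import Pool.Agent.helper62.QU.FI3
import Pool.Agent.helper10.QU.FI2

/-!
# Covers with windows `[0, B n]` (from `FI3`; the proof is helper10's proof of `FI2`)
-/

open scoped MatrixGroups ContDiff Topology UpperHalfPlane
open UpperHalfPlane MeasureTheory Filter Set

namespace Pool.Agent.QU

/-- the form of `FI2` with windows `[0, B n]`, `B n → ∞` -/
def FI4_stmt : Prop := ∀ Γ : Subgroup SL(2, ℝ), SurfaceGroup Γ →
  ∀ (N : ℕ → ℕ) (σ : ∀ n, Γ →* Equiv.Perm (Fin (N n))),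
  (∀ (a : MonoidAlgebra ℂ Γ) (ε : ℝ), 0 < ε → ∀ᶠ n in atTop,
    ∀ v : EuclideanSpace ℂ (Fin (N n)), ∑ i, v i = 0 → ‖rep (permRep (σ n)) a v‖ ≤ (regNorm a + ε) * ‖v‖) →
  ∃ B : ℕ → ℝ, Tendsto B atTop atTop ∧
  ∀ (F : Set ℍ) (h : ℍ → ℝ), IsFundamentalDomain Γ F (volume : Measure ℍ) → Continuous h →
  (∀ (γ : Γ) (z : ℍ), h (γ • z) = h z) → ∀ ε : ℝ, 0 < ε →
  ∀ᶠ n in atTop, ∀ (μ : ℝ) (φ : ℍ → Fin (N n) → ℂ), 0 ≤ μ → μ ≤ B n →
    (∀ i, CD ∞ (fun z => φ z i)) → (∀ (γ : Γ) (z : ℍ) (i : Fin (N n)), φ (γ • z) (σ n γ i) = φ z i) →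
    (∀ z, ∑ i, φ z i = 0) → (∀ i z, lap (fun z => φ z i) z = μ • φ z i) →
    |(∫ z in F, h z * ∑ i, ‖φ z i‖ ^ 2) -
        (∫ z in F, h z) / (volume F).toReal * ∫ z in F, ∑ i, ‖φ z i‖ ^ 2| ≤
      ε * ∫ z in F, ∑ i, ‖φ z i‖ ^ 2

theorem FI4 (h1 : FI3_stmt) : FI4_stmt := by
  intro Γ hΓ N σ hσ
  obtain ⟨B, hB, hall⟩ := h1 Γ hΓ (fun n => FI2_S (N n)) (fun n => FI2_rho (σ n)) (by
    intro a δ hδ
    filter_upwards [hσ a δ hδ] with n hn
    refine ContinuousLinearMap.opNorm_le_bound _ (add_nonneg (FI2_nonneg a) hδ.le) fun v => ?_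
    have h2 := hn v.1 v.2
    rw [← FI2_rep] at h2
    exact h2)
  refine ⟨B, hB, fun F h hF hh hinv ε hε => ?_⟩
  filter_upwards [hall F h hF hh hinv ε hε] with n hn
  intro μ φ hμ0 hμb hCD heq hsum hlap
  let ψ : ℍ → FI2_S (N n) := fun z => ⟨WithLp.toLp 2 (φ z), hsum z⟩
  have hψi : ∀ z i, (ψ z : EuclideanSpace ℂ (Fin (N n))) i = φ z i := fun z i => rfl
  have hcd : CD ∞ ψ := by
    have e1 : CD ∞ (fun z => (ψ z : EuclideanSpace ℂ (Fin (N n)))) := by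
      unfold CD
      rw [contDiffOn_piLp]
      intro i
      exact hCD i
    have e2 : ContDiffOn ℝ ∞ (fun w => ((FI2_S (N n)).orthogonalProjectionOnto.restrictScalars ℝ)
        (onC (fun z => (ψ z : EuclideanSpace ℂ (Fin (N n)))) w)) CA1_U :=
      ContDiffOn.continuousLinearMap_comp _ e1
    refine e2.congr fun w hw => ?_
    show ψ (ofComplex w) = (FI2_S (N n)).orthogonalProjectionOnto (ψ (ofComplex w)).1
    rw [Submodule.orthogonalProjectionOnto_mem_subspace_eq_self]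
  have hCD2 : CD 2 ψ := hcd.of_le (WithTop.coe_le_coe.2 (le_top : (2 : ℕ∞) ≤ ⊤))
  have key := hn μ ψ hμ0 hμb hcd (by
    intro γ z
    apply Subtype.ext
    show WithLp.toLp 2 (φ (γ • z)) = permRep (σ n) γ (WithLp.toLp 2 (φ z))
    ext j
    obtain ⟨i, rfl⟩ := (σ n γ).surjective j
    rw [FI2_perm]
    exact heq γ z i) (by
    intro z
    apply Subtype.ext
    ext i
    have h2 := FI2_lap (((EuclideanSpace.proj i : EuclideanSpace ℂ (Fin (N n)) →L[ℂ] ℂ).comp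
      (FI2_S (N n)).subtypeL).restrictScalars ℝ) ψ hCD2 z
    have h3 : ((lap ψ z : FI2_S (N n)) : EuclideanSpace ℂ (Fin (N n))) i = lap (fun z => φ z i) z := h2.symm
    rw [h3, hlap i z]
    rfl)
  have hnorm : ∀ z, ‖ψ z‖ ^ 2 = ∑ i, ‖φ z i‖ ^ 2 := by
    intro z
    show ‖(ψ z : EuclideanSpace ℂ (Fin (N n)))‖ ^ 2 = _
    rw [EuclideanSpace.norm_sq_eq]
  simp only [hnorm] at key
  exact key

end Pool.Agent.QU
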