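import Pool.Agent.helper62.QU.Spec

open scoped MatrixGroups ContDiff Topology UpperHalfPlane
open UpperHalfPlane MeasureTheory Filter Set

namespace Pool.Agent.QU

theorem KER_contInt {X : Type*} [TopologicalSpace X] {E : Type} [NormedAddCommGroup E]
    [NormedSpace ℝ E] (f : X → ℍ → E) (hf : Continuous (Function.uncurry f))
    (hs : ∀ p₀ : X, ∃ s ∈ 𝓝 p₀, ∃ k : Set ℍ, IsCompact k ∧ ∀ p ∈ s, ∀ x, x ∉ k → f p x = 0) :
    Continuous (fun p => ∫ x : ℍ, f p x) := by
  rw [continuous_iff_continuousAt]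
  intro p₀
  obtain ⟨s, hsn, k, hk, hz⟩ := hs p₀
  have := continuousOn_integral_of_compact_support (μ := (volume : Measure ℍ)) hk
    (f := f) (s := s) (hf.continuousOn) (fun p x hp hx => hz p hp x hx)
  exact this.continuousAt hsn

theorem KER_rad (h1 : TTT_stmt) {κ : ℝ → ℝ} (hκ : RK κ) : ∃ R : ℝ, 0 ≤ R ∧
    ∀ z w : ℍ, κ (tt z w) ≠ 0 → dist z w ≤ R := by
  obtain ⟨s, hs⟩ := hκ.supp
  obtain ⟨R, hR0, hR⟩ := h1.2.2.2.2.2.1 s
  refine ⟨R, hR0, fun z w h => hR z w ?_⟩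
  by_contra hc
  exact h (hs _ (le_of_lt (not_le.mp hc)))

theorem KER_cont (h1 : TTT_stmt) {κ : ℝ → ℝ} (hκ : RK κ) :
    Continuous fun p : ℍ × ℍ => κ (tt p.1 p.2) :=
  hκ.smooth.continuous.comp h1.2.2.2.2.1

theorem KER_hcs {E : Type} [Zero E] (f : ℍ → E) (z : ℍ) (R : ℝ) (h : ∀ w, f w ≠ 0 → dist z w ≤ R) :
    HasCompactSupport f := by
  refine HasCompactSupport.intro (isCompact_closedBall z R) fun w hw => ?_
  by_contra hc
  exact hw (by rw [Metric.mem_closedBall, dist_comm]; exact h w hc)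

/-- the kernel function `H(v) κ(t(z,v)) κ(t(v,w))` -/
noncomputable def KER_k (H : ℍ → ℝ) (κ : ℝ → ℝ) (z w v : ℍ) : ℝ := H v * (κ (tt z v) * κ (tt v w))

theorem KER_kc (h1 : TTT_stmt) {κ : ℝ → ℝ} {H : ℍ → ℝ} (hH : Continuous H) (hκ : RK κ) :
    Continuous fun p : ℍ × ℍ × ℍ => KER_k H κ p.1 p.2.1 p.2.2 := by
  unfold KER_k
  have hc := KER_cont h1 hκ
  refine (hH.comp (by fun_prop)).mul (Continuous.mul ?_ ?_)
  · exact hc.comp (by fun_prop : Continuous fun p : ℍ × ℍ × ℍ => (p.1, p.2.2))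
  · exact hc.comp (by fun_prop : Continuous fun p : ℍ × ℍ × ℍ => (p.2.2, p.2.1))

theorem KER_supp {κ : ℝ → ℝ} {H : ℍ → ℝ} {R : ℝ} (hR : ∀ z w : ℍ, κ (tt z w) ≠ 0 → dist z w ≤ R)
    {z w v : ℍ} (h : KER_k H κ z w v ≠ 0) : dist z v ≤ R ∧ dist v w ≤ R := by
  unfold KER_k at h
  have h' := (mul_ne_zero_iff.mp h).2
  exact ⟨hR _ _ (mul_ne_zero_iff.mp h').1, hR _ _ (mul_ne_zero_iff.mp h').2⟩

theorem KER_1 (h1 : TTT_stmt) (h2 : INV_stmt) (Γ : Subgroup SL(2, ℝ)) (H : ℍ → ℝ) (κ : ℝ → ℝ)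
    (hH : Inv Γ H) (hκ : RK κ) : PKer Γ (aK H κ) := by
  obtain ⟨R, hR0, hR⟩ := KER_rad h1 hκ
  have hk := KER_kc h1 hH.1 hκ
  refine ⟨?_, ?_, ?_, ?_⟩
  · have := KER_contInt (X := ℍ × ℍ) (fun p v => KER_k H κ p.1 p.2 v)
      (hk.comp (by fun_prop : Continuous fun q : (ℍ × ℍ) × ℍ => (q.1.1, q.1.2, q.2))) ?_
    · exact this
    · intro p₀
      refine ⟨Metric.ball p₀ 1, Metric.ball_mem_nhds _ one_pos, Metric.closedBall p₀.1 (R + 1),
        isCompact_closedBall _ _, fun p hp x hx => ?_⟩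
      by_contra hc
      have h3 := (KER_supp hR hc).1
      have h4 : dist p.1 p₀.1 < 1 := lt_of_le_of_lt (by simp [Prod.dist_eq]) (Metric.mem_ball.mp hp)
      apply hx
      rw [Metric.mem_closedBall]
      have := dist_triangle x p.1 p₀.1
      rw [dist_comm x p.1] at this
      linarith
  · intro z w
    unfold aK
    congr 1
    ext v
    rw [h1.2.2.1 z v, h1.2.2.1 v w]
    ring
  · intro γ z w
    unfold aK
    rw [← h2.2.2.2.1 ℝ (γ : SL(2, ℝ)) (fun v => H v * (κ (tt (γ • z) v) * κ (tt v (γ • w))))]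
    congr 1
    ext v
    have e1 : H ((γ : SL(2, ℝ)) • v) = H v := hH.2 γ v
    have e2 : tt (γ • z) ((γ : SL(2, ℝ)) • v) = tt z v := h1.2.2.2.1 (γ : SL(2, ℝ)) z v
    have e3 : tt ((γ : SL(2, ℝ)) • v) (γ • w) = tt v w := h1.2.2.2.1 (γ : SL(2, ℝ)) v w
    rw [e1, e2, e3]
  · refine ⟨R + R, fun z w hne => ?_⟩
    by_contra hc
    apply hne
    unfold aK
    rw [integral_eq_zero_of_ae]
    refine Eventually.of_forall fun v => ?_
    by_contra hv
    have h3 := KER_supp (H := H) hR hv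
    have := dist_triangle z v w
    linarith [h3.1, h3.2]

theorem KER_2 (h1 : TTT_stmt) (H : ℍ → ℝ) (κ : ℝ → ℝ) (hH : Continuous H) (hκ : RK κ) (m : ℕ)
    (q : Fin m → ℍ) (x : Fin m → ℝ) : ∑ l, ∑ l', x l * x l' * aK H κ (q l) (q l') =
    ∫ v : ℍ, H v * (∑ l, x l * κ (tt v (q l))) ^ 2 := by
  obtain ⟨R, hR0, hR⟩ := KER_rad h1 hκ
  have hk := KER_kc h1 hH hκ
  have hint : ∀ z w : ℍ, Integrable (fun v => KER_k H κ z w v) (volume : Measure ℍ) := fun z w =>
    Continuous.integrable_of_hasCompactSupport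
      (hk.comp (by fun_prop : Continuous fun v : ℍ => (z, w, v)))
      (KER_hcs _ z R fun v hv => (KER_supp hR hv).1)
  have e : ∀ v, H v * (∑ l, x l * κ (tt v (q l))) ^ 2 =
      ∑ l, ∑ l', x l * x l' * KER_k H κ (q l) (q l') v := by
    intro v
    rw [sq, Finset.sum_mul_sum, Finset.mul_sum]
    refine Finset.sum_congr rfl fun l _ => ?_
    rw [Finset.mul_sum]
    refine Finset.sum_congr rfl fun l' _ => ?_
    unfold KER_k
    rw [h1.2.2.1 (q l) v]
    ring
  simp_rw [e]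
  rw [integral_finsetSum _ fun l _ => integrable_finsetSum _ fun l' _ => (hint _ _).const_mul _]
  refine Finset.sum_congr rfl fun l _ => ?_
  rw [integral_finsetSum _ fun l' _ => (hint _ _).const_mul _]
  refine Finset.sum_congr rfl fun l' _ => ?_
  rw [integral_const_mul]
  rfl

section vec

variable {V : Type} [NormedAddCommGroup V] [InnerProductSpace ℂ V] [CompleteSpace V]

/-- the real linear form `y ↦ Re ⟨x, y⟩` -/
noncomputable def KER_L (x : V) : V →L[ℝ] ℝ :=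
  Complex.reCLM ∘L ((innerSL ℂ x).restrictScalars ℝ)

omit [CompleteSpace V] in
theorem KER_L_apply (x y : V) : KER_L x y = (inner ℂ x y).re := rfl

theorem KER_conv (κ : ℝ → ℝ) (φ : ℍ → V) (x : V) (z : ℍ)
    (hi : Integrable (fun w => κ (tt z w) • φ w) (volume : Measure ℍ)) :
    (inner ℂ x (conv κ φ z)).re = ∫ w : ℍ, κ (tt z w) * (inner ℂ x (φ w)).re := by
  unfold conv
  rw [← KER_L_apply, ← ContinuousLinearMap.integral_comp_comm _ hi]
  refine integral_congr_ae (Eventually.of_forall fun w => ?_)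
  show KER_L x (κ (tt z w) • φ w) = _
  rw [map_smul, KER_L_apply, smul_eq_mul]

omit [CompleteSpace V] in
theorem KER_sym (x y : V) : (inner ℂ x y).re = (inner ℂ y x).re := by
  rw [← inner_conj_symm x y]; exact Complex.conj_re _

end vec

theorem KER (h1 : TTT_stmt) (h2 : INV_stmt) (_h3 : LAK_stmt) (h4 : CVB_stmt) (_h5 : DOB_stmt)
    (h6 : SYM_stmt) : KER_stmt := by
  intro Γ F H κ hΓ hF hH hκ
  refine ⟨KER_1 h1 h2 Γ H κ hH hκ, KER_2 h1 H κ hH.1 hκ, ?_⟩
  intro V _ _ _ ρ φ hφ hρ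
  obtain ⟨R, hR0, hR⟩ := KER_rad h1 hκ
  have hk := KER_kc h1 hH.1 hκ
  have hc2 := KER_cont h1 hκ
  obtain ⟨c1, c2, c3, c4, c5, c6, c7, c8⟩ := h4 V
  have hcv : Continuous (conv κ φ) := c6 κ φ hκ hφ
  have hint : ∀ z : ℍ, Integrable (fun w => κ (tt z w) • φ w) (volume : Measure ℍ) := fun z =>
    Continuous.integrable_of_hasCompactSupport
      ((hc2.comp (by fun_prop : Continuous fun w : ℍ => (z, w))).smul hφ)
      (KER_hcs _ z R fun v hv => hR _ _ (left_ne_zero_of_smul hv))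
  have hequiv : ∀ (γ : Γ) (z : ℍ), conv κ φ (γ • z) = ρ γ (conv κ φ z) := by
    intro γ z
    have e := c1 κ φ (γ : SL(2, ℝ)) z
    have e' : conv κ φ (γ • z) = conv κ (fun w => φ ((γ : SL(2, ℝ)) • w)) z := e.symm
    rw [e']
    unfold conv
    have : ∀ w : ℍ, κ (tt z w) • φ ((γ : SL(2, ℝ)) • w) =
        (((ρ γ).toContinuousLinearEquiv : V →L[ℂ] V).restrictScalars ℝ) (κ (tt z w) • φ w) := by
      intro w
      have e2 : φ ((γ : SL(2, ℝ)) • w) = ρ γ (φ w) := hρ γ w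
      rw [map_smul, e2]
      rfl
    simp_rw [this]
    rw [ContinuousLinearMap.integral_comp_comm _ (hint z)]
    rfl
  -- the kernel
  set G : ℍ → ℍ → ℝ := fun z v => H v * κ (tt z v) * (inner ℂ (φ z) (conv κ φ v)).re with hG
  have hGc : Continuous (Function.uncurry G) := by
    have : Continuous fun p : ℍ × ℍ => H p.2 * κ (tt p.1 p.2) * (inner ℂ (φ p.1) (conv κ φ p.2)).re :=
      ((hH.1.comp continuous_snd).mul hc2).mul
        (Complex.continuous_re.comp ((hφ.comp continuous_fst).inner (hcv.comp continuous_snd)))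
    exact this
  have hGi : ∀ (γ : Γ) z w, G (γ • z) (γ • w) = G z w := by
    intro γ z w
    simp only [hG]
    rw [hH.2 γ w, hequiv γ w, hρ γ z, LinearIsometryEquiv.inner_map_map]
    have : tt (γ • z) (γ • w) = tt z w := h1.2.2.2.1 (γ : SL(2, ℝ)) z w
    rw [this]
  have hGp : ∃ R : ℝ, ∀ z w, G z w ≠ 0 → dist z w ≤ R := by
    refine ⟨R, fun z w hne => hR _ _ ?_⟩
    simp only [hG] at hne
    exact (mul_ne_zero_iff.mp (mul_ne_zero_iff.mp hne).1).2
  have hS := h6 Γ F ℝ G hΓ hF hGc hGi hGp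
  have eL : ∀ z : ℍ, (∫ w : ℍ, aK H κ z w * (inner ℂ (φ z) (φ w)).re) = ∫ v : ℍ, G z v := by
    intro z
    have e1 : ∀ w : ℍ, aK H κ z w * (inner ℂ (φ z) (φ w)).re =
        ∫ v : ℍ, KER_k H κ z w v * (inner ℂ (φ z) (φ w)).re := by
      intro w
      rw [integral_mul_const]
      rfl
    simp_rw [e1]
    rw [integral_integral_swap]
    · refine integral_congr_ae (Eventually.of_forall fun v => ?_)
      simp only [hG]
      rw [KER_conv κ φ (φ z) v (hint v), ← integral_const_mul]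
      refine integral_congr_ae (Eventually.of_forall fun w => ?_)
      simp only [KER_k]
      ring
    · have hcont : Continuous fun p : ℍ × ℍ =>
          KER_k H κ z p.1 p.2 * (inner ℂ (φ z) (φ p.1)).re :=
        (hk.comp (by fun_prop : Continuous fun p : ℍ × ℍ => (z, p.1, p.2))).mul
          (Complex.continuous_re.comp (continuous_const.inner (hφ.comp continuous_fst)))
      refine Continuous.integrable_of_hasCompactSupport hcont ?_
      refine HasCompactSupport.intro ((isCompact_closedBall z (R + R)).prod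
        (isCompact_closedBall z R)) fun p hp => ?_
      by_contra hne
      apply hp
      have h7 := KER_supp (H := H) hR (left_ne_zero_of_mul hne)
      have h8 := dist_triangle z p.2 p.1
      refine ⟨?_, ?_⟩
      · rw [Metric.mem_closedBall, dist_comm]
        linarith [h7.1, h7.2]
      · rw [Metric.mem_closedBall, dist_comm]
        exact h7.1
  have eR : ∀ z : ℍ, (∫ w : ℍ, G w z) = H z * ‖conv κ φ z‖ ^ 2 := by
    intro z
    have e1 : ∀ w : ℍ, G w z = H z * (κ (tt z w) * (inner ℂ (conv κ φ z) (φ w)).re) := by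
      intro w
      simp only [hG]
      rw [KER_sym (φ w), h1.2.2.1 w z]
      ring
    simp_rw [e1]
    rw [integral_const_mul, ← KER_conv κ φ _ z (hint z)]
    congr 1
    rw [← @inner_self_eq_norm_sq ℂ V _ _ _ (conv κ φ z)]
    rfl
  simp_rw [eL, hS, eR]

end Pool.Agent.QU
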