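import Pool.Agent.helper62.QU.INV
import Pool.Agent.helper62.QU.CA1
import Pool.Agent.helper42.QU.CA2
import Pool.Agent.helper93.QU.DXI
import Pool.Agent.helper35.QU.GRN
import Pool.Agent.helper99.QU.IDN
import Pool.Agent.helper22.QU.REL
import Pool.Agent.helper28.QU.TTT
import Pool.Agent.helper45.QU.LAK
import Pool.Agent.helper62.QU.CVS
import Pool.Agent.helper6.QU.CVB
import Pool.Agent.helper23.QU.EQV
import Pool.Agent.helper5.QU.COM
import Pool.Agent.helper48.QU.FRB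
import Pool.Agent.helper51.QU.ROD
import Pool.Agent.helper13.QU.MAS
import Pool.Agent.helper61.QU.KFM
import Pool.Agent.helper72.QU.APX
import Pool.Agent.helper72.QU.DOM
import Pool.Agent.helper91.QU.DOB
import Pool.Agent.helper19.QU.BDD
import Pool.Agent.helper8.QU.SYM
import Pool.Agent.helper60.QU.YNG
import Pool.Agent.helper96.QU.SYC
import Pool.Agent.helper75.QU.FUB
import Pool.Agent.helper56.QU.ABS
import Pool.Agent.helper21.QU.MEA
import Pool.Agent.helper65.QU.KLI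
import Pool.Agent.helper59.QU.SCM
import Pool.Agent.helper37.QU.PAR
import Pool.Agent.helper72.QU.TR2
import Pool.Agent.helper82.QU.TR3
import Pool.Agent.helper52.QU.TRF
import Pool.Agent.helper62.QU.KER
import Pool.Agent.helper94.QU.EIG
import Pool.Agent.helper98.QU.FI1
import Pool.Agent.helper10.QU.FI2
import Pool.Agent.helper62.QU.FI4

/-!
# MP_07c750_an: assembly of the rows qu:X
-/

namespace Pool.Agent.QU

theorem A_INV : INV_stmt := INV

theorem A_CA1 : CA1_stmt := CA1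

theorem A_CA2 : CA2_stmt := CA2 A_CA1

theorem A_DXI : DXI_stmt := DXI A_INV A_CA1

theorem A_GRN : GRN_stmt := GRN A_CA1 A_CA2 A_DXI

theorem A_IDN : IDN_stmt := IDN A_CA1 A_CA2 A_DXI

theorem A_REL : REL_stmt := REL A_CA1 A_CA2 A_DXI A_GRN

theorem A_TTT : TTT_stmt := TTT

theorem A_LAK : LAK_stmt := LAK A_TTT A_CA1

theorem A_CVS : CVS_stmt := CVS A_TTT A_CA1 A_LAK

theorem A_CVB : CVB_stmt := CVB A_TTT A_INV A_CA1 A_LAK

theorem A_EQV : EQV_stmt := EQV A_CVB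

theorem A_COM : COM_stmt := COM A_TTT A_CA1 A_LAK A_GRN

theorem A_FRB : FRB_stmt := FRB A_TTT A_CA1 A_CA2 A_LAK A_CVS A_CVB

theorem A_ROD : ROD_stmt := ROD

theorem A_MAS : MAS_stmt := MAS A_TTT A_INV A_CA1 A_LAK A_GRN A_ROD

theorem A_KFM : KFM_stmt := KFM A_MAS A_ROD

theorem A_APX : APX_stmt := APX A_TTT A_INV A_LAK A_CVB

theorem A_DOM : DOM_stmt := DOM

theorem A_DOB : DOB_stmt := DOB A_INV

theorem A_BDD : BDD_stmt := BDD A_INV A_DOB

theorem A_SYM : SYM_stmt := SYM A_INV A_DOB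

theorem A_YNG : YNG_stmt := YNG A_TTT A_INV A_LAK A_DOB A_SYM

theorem A_SYC : SYC_stmt := SYC A_TTT A_LAK A_CVB A_SYM

theorem A_FUB : FUB_stmt := FUB A_TTT A_INV A_LAK A_CVB A_DOB A_BDD

theorem A_ABS : ABS_stmt := ABS A_TTT A_CA1 A_LAK A_CVS A_CVB A_COM A_KFM A_APX A_DOM A_DOB A_BDD A_SYC A_FUB

theorem A_MEA : MEA_stmt := MEA A_TTT A_INV A_CA1 A_LAK A_CVS A_CVB A_KFM A_APX A_DOB A_BDD A_SYC A_FUB

theorem A_KLI : KLI_stmt := KLI A_CA1 A_LAK A_CVS A_CVB A_FRB A_IDN A_REL A_DOB A_BDD A_ABS A_MEA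

theorem A_SCM : SCM_stmt := SCM

theorem A_PAR : PAR_stmt := PAR A_TTT A_DOB

theorem A_TR2 : TR2_stmt := TR2

theorem A_TR3 : TR3_stmt := TR3 A_INV A_DOB

theorem A_TRF : TRF_stmt := TRF A_DOB A_SCM A_PAR A_TR2 A_TR3

theorem A_KER : KER_stmt := KER A_TTT A_INV A_LAK A_CVB A_DOB A_SYM

theorem A_EIG : EIG_stmt := EIG A_TTT A_CA1 A_LAK A_CVS A_CVB A_COM A_APX A_DOB A_YNG

theorem A_FI1 : FI1_stmt := FI1 A_TTT A_CA1 A_CA2 A_LAK A_CVS A_CVB A_EQV A_COM A_KFM A_DOM A_DOB A_BDD A_KLI A_TRF A_KER A_EIG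

theorem A_FI2 : FI2_stmt := FI2 A_FI1

theorem A_FI3 : FI3_stmt := FI3 A_CA1 A_DOM A_DOB A_FI1

theorem A_FI4 : FI4_stmt := FI4 A_FI3

end Pool.Agent.QU
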