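import Pool.Agent.helper62.QU.Spec

open scoped MatrixGroups ContDiff Topology UpperHalfPlane
open UpperHalfPlane MeasureTheory Filter Set

namespace Pool.Agent.QU

theorem INV_a : SMulInvariantMeasure SL(2, ℝ) ℍ (volume : Measure ℍ) := by
  constructor
  intro g s hs
  have h := (inferInstance : SMulInvariantMeasure (GL (Fin 2) ℝ) ℍ (volume : Measure ℍ)).measure_preimage_smul
    (g : GL (Fin 2) ℝ) hs
  exact h

theorem INV_b (Γ : Subgroup SL(2, ℝ)) : SMulInvariantMeasure Γ ℍ (volume : Measure ℍ) := by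
  constructor
  intro g s hs
  exact INV_a.measure_preimage_smul (g : SL(2, ℝ)) hs

theorem INV_c : (volume : Measure ℍ).IsOpenPosMeasure := by
  constructor
  intro U hU hne
  rw [volume_eq_lintegral]
  have hU' : IsOpen ((↑) '' U : Set ℂ) := isOpenEmbedding_coe.isOpenMap U hU
  intro h0
  rw [lintegral_eq_zero_iff (by fun_prop)] at h0
  have h1 : ∀ᵐ z : ℂ ∂(volume.restrict ((↑) '' U : Set ℂ)), False := by
    filter_upwards [h0, ae_restrict_mem hU'.measurableSet] with z hz hzU
    obtain ⟨w, -, rfl⟩ := hzU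
    have := w.im_ne_zero
    simp at hz
    exact this hz
  rw [ae_iff] at h1
  simp only [not_false_eq_true, Set.ofPred_true, Measure.restrict_apply_univ] at h1
  exact (hU'.measure_pos volume (hne.image _)).ne' h1

theorem INV_d (E : Type) [NormedAddCommGroup E] [NormedSpace ℝ E] (g : SL(2, ℝ)) (f : ℍ → E) :
    ∫ z : ℍ, f (g • z) = ∫ z : ℍ, f z := by
  have := INV_a
  exact integral_smul_eq_self (μ := (volume : Measure ℍ)) f

theorem INV_e (E : Type) [NormedAddCommGroup E] [NormedSpace ℝ E] (f : ℍ → E) :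
    ∫ z : ℍ, f z = ∫ w in {w : ℂ | 0 < w.im}, ((w.im ^ 2)⁻¹ : ℝ) • f (ofComplex w) := by
  rw [volume_def]
  rw [integral_withDensity_eq_integral_smul]
  swap
  · exact (by fun_prop : Measurable fun z : ℍ => ((1 / NNReal.mk z.im z.im_pos.le) ^ 2 : NNReal))
  have hr : (Set.range UpperHalfPlane.coe) = {w : ℂ | 0 < w.im} := by
    ext w
    constructor
    · rintro ⟨z, rfl⟩
      exact z.im_pos
    · intro hw
      exact ⟨⟨w, hw⟩, rfl⟩
  have mp : MeasurePreserving UpperHalfPlane.coe (volume.comap UpperHalfPlane.coe)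
      (volume.restrict (.range UpperHalfPlane.coe)) :=
    ⟨measurable_coe, by rw [measurableEmbedding_coe.map_comap]⟩
  rw [← hr, ← mp.integral_comp measurableEmbedding_coe]
  congr 1
  ext z
  rw [ofComplex_apply]
  rw [NNReal.smul_def]
  simp

theorem INV : INV_stmt :=
  ⟨INV_a, INV_b, INV_c, fun E _ _ => INV_d E, fun E _ _ => INV_e E⟩

end Pool.Agent.QU
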