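import Pool.Agent.helper62.QU.Defs

/-!
# Quantum unique ergodicity of strongly convergent flat bundles and covers: the notions of the theorem
-/

open scoped MatrixGroups ContDiff Topology UpperHalfPlane
open UpperHalfPlane MeasureTheory Filter Set

namespace Pool.Agent.QU

/-- `limsup ‖ρ_n(a)‖ ≤ ‖λ(a)‖` for all elements `a` of the group algebra (`λ` the regular
representation) -/
def StrongLim {Γ : Type} [Group Γ] (V : ℕ → Type) [∀ n, NormedAddCommGroup (V n)]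
    [∀ n, InnerProductSpace ℂ (V n)] (ρ : ∀ n, Γ →* (V n ≃ₗᵢ[ℂ] V n)) : Prop :=
  ∀ (a : MonoidAlgebra ℂ Γ) (ε : ℝ), 0 < ε → ∀ᶠ n in atTop, ‖rep (ρ n) a‖ ≤ regNorm a + ε

/-- the same for permutation representations, on the vectors of sum zero -/
def StrongLimPerm {Γ : Type} [Group Γ] (N : ℕ → ℕ) (σ : ∀ n, Γ →* Equiv.Perm (Fin (N n))) : Prop :=
  ∀ (a : MonoidAlgebra ℂ Γ) (ε : ℝ), 0 < ε → ∀ᶠ n in atTop,
    ∀ v : EuclideanSpace ℂ (Fin (N n)), ∑ i, v i = 0 →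
      ‖rep (permRep (σ n)) a v‖ ≤ (regNorm a + ε) * ‖v‖

/-- `φ` is a smooth section of the flat bundle of `ρ` over `Γ \ ℍ` with `Δφ = μφ` -/
def IsEigensection {Γ : Subgroup SL(2, ℝ)} {V : Type} [NormedAddCommGroup V]
    [InnerProductSpace ℂ V] (ρ : Γ →* (V ≃ₗᵢ[ℂ] V)) (μ : ℝ) (φ : ℍ → V) : Prop :=
  CD ∞ φ ∧ (∀ (γ : Γ) (z : ℍ), φ (γ • z) = ρ γ (φ z)) ∧ ∀ z, lap φ z = μ • φ z

/-- `φ` is a smooth function on the cover of `Γ \ ℍ` given by the permutation representation `σ`,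
with `Δφ = μφ` and with sum zero over each fibre (a new eigenfunction) -/
def IsNewEigenfunction {Γ : Subgroup SL(2, ℝ)} {N : ℕ} (σ : Γ →* Equiv.Perm (Fin N)) (μ : ℝ)
    (φ : ℍ → Fin N → ℂ) : Prop :=
  (∀ i, CD ∞ (fun z => φ z i)) ∧ (∀ (γ : Γ) (z : ℍ) (i : Fin N), φ (γ • z) (σ γ i) = φ z i) ∧
    (∀ z, ∑ i, φ z i = 0) ∧ ∀ i z, lap (fun z => φ z i) z = μ • φ z i

/-- `h` is a continuous real function on `Γ \ ℍ` -/
def IsTest (Γ : Subgroup SL(2, ℝ)) (h : ℍ → ℝ) : Prop :=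
  Continuous h ∧ ∀ (γ : Γ) (z : ℍ), h (γ • z) = h z

/-- `|∫ h w - mean(h) ∫ w| ≤ ε ∫ w`, integrals over `M = Γ \ ℍ` -/
def Equidist (Γ : Subgroup SL(2, ℝ)) (h w : ℍ → ℝ) (ε : ℝ) : Prop :=
  ∀ F : Set ℍ, IsFundamentalDomain Γ F (volume : Measure ℍ) →
    |(∫ z in F, h z * w z) - (∫ z in F, h z) / (volume F).toReal * ∫ z in F, w z| ≤
      ε * ∫ z in F, w z

end Pool.Agent.QU
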