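import Pool.Agent.helper62.QU.All
import Pool.Agent.helper62.QU.HDefs

open scoped MatrixGroups ContDiff Topology UpperHalfPlane
open UpperHalfPlane MeasureTheory Filter Set

namespace Pool.Agent.QU

theorem FIN_tr {Γ : Subgroup SL(2, ℝ)} (hΓ : SurfaceGroup Γ) {F₀ : Set ℍ} (hF₀ : NiceDom Γ F₀)
    {h w : ℍ → ℝ} {ε : ℝ} (hh : ∀ (γ : Γ) (z : ℍ), h (γ • z) = h z)
    (hw : ∀ (γ : Γ) (z : ℍ), w (γ • z) = w z)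
    (hm : |(∫ z in F₀, h z * w z) - (∫ z in F₀, h z) / (volume F₀).toReal * ∫ z in F₀, w z| ≤
      ε * ∫ z in F₀, w z) : Equidist Γ h w ε := by
  intro F hF
  obtain ⟨-, -, -, -, htr, -⟩ := A_DOB Γ F₀ hΓ hF₀
  obtain ⟨v1, v2⟩ := htr F hF
  rw [v1, v2 h hh, v2 w hw, v2 (fun z => h z * w z) (fun γ z => by rw [hh, hw])]
  exact hm

theorem FIN_all (Γ : Subgroup SL(2, ℝ)) (hΓ : SurfaceGroup Γ) :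
    (∀ (V : ℕ → Type) [∀ n, NormedAddCommGroup (V n)] [∀ n, InnerProductSpace ℂ (V n)]
      [∀ n, CompleteSpace (V n)] (ρ : ∀ n, Γ →* (V n ≃ₗᵢ[ℂ] V n)), StrongLim V ρ →
      ∃ b : ℕ → ℝ, Tendsto b atTop atTop ∧ ∀ h : ℍ → ℝ, IsTest Γ h → ∀ ε : ℝ, 0 < ε →
        ∀ᶠ n in atTop, ∀ (μ : ℝ) (φ : ℍ → V n), 0 ≤ μ → μ ≤ b n → IsEigensection (ρ n) μ φ →
          Equidist Γ h (fun z => ‖φ z‖ ^ 2) ε) ∧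
    ∀ (N : ℕ → ℕ) (σ : ∀ n, Γ →* Equiv.Perm (Fin (N n))), StrongLimPerm N σ →
      ∃ b : ℕ → ℝ, Tendsto b atTop atTop ∧ ∀ h : ℍ → ℝ, IsTest Γ h → ∀ ε : ℝ, 0 < ε →
        ∀ᶠ n in atTop, ∀ (μ : ℝ) (φ : ℍ → Fin (N n) → ℂ), 0 ≤ μ → μ ≤ b n →
          IsNewEigenfunction (σ n) μ φ → Equidist Γ h (fun z => ∑ i, ‖φ z i‖ ^ 2) ε := by
  obtain ⟨F₀, hF₀⟩ := A_DOM Γ hΓ
  have hfd := (A_DOB Γ F₀ hΓ hF₀).2.1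
  refine ⟨fun V _ _ _ ρ hρ => ?_, fun N σ hσ => ?_⟩
  · obtain ⟨b, hb, H⟩ := A_FI3 Γ hΓ V ρ hρ
    refine ⟨b, hb, fun h hh ε hε => ?_⟩
    filter_upwards [H F₀ h hfd hh.1 hh.2 ε hε] with n hn
    intro μ φ h0 h1 hφ
    exact FIN_tr hΓ hF₀ hh.2 (fun γ z => by rw [hφ.2.1, LinearIsometryEquiv.norm_map])
      (hn μ φ h0 h1 hφ.1 hφ.2.1 hφ.2.2)
  · obtain ⟨b, hb, H⟩ := A_FI4 Γ hΓ N σ hσ
    refine ⟨b, hb, fun h hh ε hε => ?_⟩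
    filter_upwards [H F₀ h hfd hh.1 hh.2 ε hε] with n hn
    intro μ φ h0 h1 hφ
    refine FIN_tr hΓ hF₀ hh.2 (fun γ z => ?_)
      (hn μ φ h0 h1 hφ.1 hφ.2.1 hφ.2.2.1 hφ.2.2.2)
    rw [← Equiv.sum_comp (σ n γ)]
    exact Finset.sum_congr rfl fun i _ => by rw [hφ.2.1]

end Pool.Agent.QU
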