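import Pool.Agent.helper62.QU.Defs

/-!
# MP_07c750: strong convergence implies quantum unique ergodicity, rows `qu:X`

Prove `X_stmt` in `Pool/Agent/<seat>/QU/X.lean`, namespace `Pool.Agent.QU`, auxiliary lemmas prefixed `X_`.

Plan. `M = Γ\ℍ` compact, `X = y∂_x`, `Y = y∂_y`, `D = Y - 1/2`, `Δ = -X² - Y² + Y = -X² - D² + 1/4`.
(1) On `L²(ℍ)`: `‖Xu‖² = -⟨(Δ-μ)u, Du⟩`, so quasimodes of the universal cover are nearly invariant under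
the horocyclic field `X` (IDN). (2) Hence for `Γ`-invariant `g` the numbers `α(g)=∫gu²`, `β(g)=∫g(Du)²`,
`κ(g)=∫guDu` satisfy nearly three linear relations (REL); on the compact `M` they force `α(g)` to be
the mean of `g` (ABS, MEA), which gives the key inequality KLI. (3) KLI is an inequality between
`Γ`-invariant kernel operators of finite propagation, it is transferred to strongly converging
representations (TRF, SCM). (4) FI1, FI2.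
-/

open scoped MatrixGroups ContDiff Topology UpperHalfPlane
open UpperHalfPlane MeasureTheory Filter Set

namespace Pool.Agent.QU

section defs

variable {E : Type} [NormedAddCommGroup E] [NormedSpace ℝ E]

/-- the vector field `X = y ∂/∂x` -/
noncomputable def dX (φ : ℍ → E) (z : ℍ) : E := z.im • fderiv ℝ (onC φ) (z : ℂ) 1

/-- the vector field `Y = y ∂/∂y` -/
noncomputable def dY (φ : ℍ → E) (z : ℍ) : E := z.im • fderiv ℝ (onC φ) (z : ℂ) Complex.I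

/-- `D = Y - 1/2` -/
noncomputable def dD (u : ℍ → ℝ) (z : ℍ) : ℝ := dY u z - u z / 2

/-- `cosh d(z,w) - 1` -/
noncomputable def tt (z w : ℍ) : ℝ := ‖(z : ℂ) - (w : ℂ)‖ ^ 2 / (2 * z.im * w.im)

/-- radial part of the Laplace operator -/
noncomputable def LL (κ : ℝ → ℝ) (t : ℝ) : ℝ :=
  -(t * (t + 2) * deriv (deriv κ) t + 2 * (t + 1) * deriv κ t)

/-- radial kernels: smooth functions `κ` with `κ = 0` on some `[s, ∞)` -/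
structure RK (κ : ℝ → ℝ) : Prop where
  smooth : ContDiff ℝ ∞ κ
  supp : ∃ s : ℝ, ∀ t, s ≤ t → κ t = 0

/-- convolution with the point pair invariant `κ(t(z,w))` -/
noncomputable def conv (κ : ℝ → ℝ) (f : ℍ → E) (z : ℍ) : E := ∫ w : ℍ, κ (tt z w) • f w

end defs

/-- continuous `Γ`-invariant functions -/
def Inv (Γ : Subgroup SL(2, ℝ)) (g : ℍ → ℝ) : Prop :=
  Continuous g ∧ ∀ (γ : Γ) (z : ℍ), g (γ • z) = g z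

/-- a strict relatively compact fundamental domain -/
structure NiceDom (Γ : Subgroup SL(2, ℝ)) (F : Set ℍ) : Prop where
  meas : MeasurableSet F
  rel : ∃ K : Set ℍ, IsCompact K ∧ F ⊆ K
  uniq : ∀ z : ℍ, ∃! γ : Γ, γ • z ∈ F

/-- bounded linear functionals on the space of continuous `Γ`-invariant functions -/
structure BFun (Γ : Subgroup SL(2, ℝ)) (α : (ℍ → ℝ) → ℝ) : Prop where
  add : ∀ f g : ℍ → ℝ, Inv Γ f → Inv Γ g → α (fun z => f z + g z) = α f + α g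
  smul : ∀ (c : ℝ) (f : ℍ → ℝ), Inv Γ f → α (fun z => c * f z) = c * α f
  bound : ∃ C : ℝ, ∀ (f : ℍ → ℝ) (m : ℝ), Inv Γ f → (∀ z, |f z| ≤ m) → |α f| ≤ C * m

/-- a family of probability kernels concentrating at `t = 0` (property of row KFM) -/
structure Fam (fam : ℝ → ℝ → ℝ) : Prop where
  rk : ∀ η, 0 < η → RK (fam η)
  nonneg : ∀ η, 0 < η → ∀ t, 0 ≤ fam η t
  supp : ∀ η, 0 < η → ∀ t, η ≤ t → fam η t = 0
  pos : ∀ η, 0 < η → ∀ t, 0 ≤ t → t < η → 0 < fam η t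
  mass : ∀ η, 0 < η → ∀ z : ℍ, ∫ w : ℍ, fam η (tt z w) = 1
  psi : ∀ η η' : ℝ, 0 < η' → η' ≤ η → ∃ ψ : ℝ → ℝ, RK ψ ∧ (∀ t, 0 ≤ t → 0 ≤ ψ t) ∧
    (∀ t, 0 ≤ t → LL ψ t = fam η' t - fam η t) ∧ ∀ z : ℍ, ∫ w : ℍ, ψ (tt z w) ≤ η / 2

/-- inner product of finitely supported functions on `Γ` -/
noncomputable def ip {G : Type} [Group G] (u v : MonoidAlgebra ℂ G) : ℂ :=
  ∑ γ ∈ u.coeff.support, star (u.coeff γ) * v.coeff γ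

/-- `limsup ‖ρ_n(a)‖ ≤ ‖λ(a)‖` for all `a` in the group algebra -/
def Strong {G : Type} [Group G] (V : ℕ → Type) [∀ n, NormedAddCommGroup (V n)]
    [∀ n, InnerProductSpace ℂ (V n)] (ρ : ∀ n, G →* (V n ≃ₗᵢ[ℂ] V n)) : Prop :=
  ∀ (a : MonoidAlgebra ℂ G) (ε : ℝ), 0 < ε → ∀ᶠ n in atTop, ‖rep (ρ n) a‖ ≤ regNorm a + ε

/-- the kernel `∫ H(v) κ(t(z,v)) κ(t(v,w)) dv` -/
noncomputable def aK (H : ℍ → ℝ) (κ : ℝ → ℝ) (z w : ℍ) : ℝ :=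
  ∫ v : ℍ, H v * (κ (tt z v) * κ (tt v w))

/-- symmetric `Γ`-invariant continuous kernels of finite propagation -/
structure PKer (Γ : Subgroup SL(2, ℝ)) (a : ℍ → ℍ → ℝ) : Prop where
  cont : Continuous (Function.uncurry a)
  symm : ∀ z w, a z w = a w z
  inv : ∀ (γ : Γ) (z w : ℍ), a (γ • z) (γ • w) = a z w
  prop : ∃ R : ℝ, ∀ z w, a z w ≠ 0 → dist z w ≤ R

/-! ### Group A: calculus on `ℍ` -/

/-- **Row INV**. The hyperbolic measure is invariant under `SL(2, ℝ)` and its subgroups (from the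
instance for `GL(2, ℝ)`), open sets have positive measure, and integrals are integrals over the half-plane in `ℂ`
(`volume_def`, `MeasurableEmbedding`). -/
def INV_stmt : Prop := SMulInvariantMeasure SL(2, ℝ) ℍ (volume : Measure ℍ) ∧
  (∀ Γ : Subgroup SL(2, ℝ), SMulInvariantMeasure Γ ℍ (volume : Measure ℍ)) ∧
  (volume : Measure ℍ).IsOpenPosMeasure ∧
  (∀ (E : Type) [NormedAddCommGroup E] [NormedSpace ℝ E] (g : SL(2, ℝ)) (f : ℍ → E),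
    ∫ z : ℍ, f (g • z) = ∫ z : ℍ, f z) ∧
  ∀ (E : Type) [NormedAddCommGroup E] [NormedSpace ℝ E] (f : ℍ → E),
    ∫ z : ℍ, f z = ∫ w in {w : ℂ | 0 < w.im}, ((w.im ^ 2)⁻¹ : ℝ) • f (ofComplex w)

/-- **Row CA1** (rules of calculus). All are local statements about `onC φ` on the open half-plane
`{0 < im}`, on which `onC (fun z => a z • φ z) = onC a • onC φ` etc. and `onC φ z = φ z`. -/
def CA1_stmt : Prop := ∀ (E : Type) [NormedAddCommGroup E] [NormedSpace ℝ E],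
  (∀ φ : ℍ → E, CD 0 φ ↔ Continuous φ) ∧
  (∀ (φ : ℍ → E) (m n : WithTop ℕ∞), m ≤ n → CD n φ → CD m φ) ∧
  (∀ (φ ψ : ℍ → E) (n : WithTop ℕ∞), CD n φ → CD n ψ → CD n (fun z => φ z + ψ z)) ∧
  (∀ (a : ℍ → ℝ) (φ : ℍ → E) (n : WithTop ℕ∞), CD n a → CD n φ → CD n (fun z => a z • φ z)) ∧
  (∀ (φ : ℍ → E) (n : ℕ), CD ((n : WithTop ℕ∞) + 1) φ → CD n (dX φ) ∧ CD n (dY φ)) ∧
  (∀ φ ψ : ℍ → E, CD 1 φ → CD 1 ψ → ∀ z, dX (fun z => φ z + ψ z) z = dX φ z + dX ψ z ∧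
    dY (fun z => φ z + ψ z) z = dY φ z + dY ψ z) ∧
  (∀ (a : ℍ → ℝ) (φ : ℍ → E), CD 1 a → CD 1 φ → ∀ z,
    dX (fun z => a z • φ z) z = a z • dX φ z + dX a z • φ z ∧
    dY (fun z => a z • φ z) z = a z • dY φ z + dY a z • φ z) ∧
  (∀ (c : E) (z : ℍ), dX (fun _ => c) z = 0 ∧ dY (fun _ => c) z = 0) ∧
  (∀ (c : E) (n : WithTop ℕ∞), CD n (fun _ : ℍ => c)) ∧
  (∀ φ : ℍ → E, tsupport (dX φ) ⊆ tsupport φ ∧ tsupport (dY φ) ⊆ tsupport φ)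

/-- **Row CA2** (second derivatives). `Y X = X Y + X` and `Δ = -X² - Y² + Y` on functions of class
`C²` (symmetry of the second derivative; `X(Xφ) = y²φ_xx`, `Y(Yφ) = y²φ_yy + yφ_y`,
`Y(Xφ) = yφ_x + y²φ_xy`, `X(Yφ) = y²φ_xy`). -/
def CA2_stmt : Prop := ∀ (E : Type) [NormedAddCommGroup E] [NormedSpace ℝ E] (φ : ℍ → E),
  CD 2 φ → ∀ z, dY (dX φ) z = dX (dY φ) z + dX φ z ∧
    lap φ z = -dX (dX φ) z - dY (dY φ) z + dY φ z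

/-- **Row DXI** (from INV). Integration by parts: `∫ y φ_x dx dy/y² = 0` and `∫ y φ_y dx dy/y² = ∫ φ dx dy/y²`.
Extend `y⁻¹ φ` resp. by `0` from the half-plane to a compactly supported `C¹` function on `ℂ`; the integral of
a directional derivative of such a function is `0` (e.g. `integral_fderiv...`, or
`integral_mul_fderiv_eq_neg_fderiv_mul_of_integrable` and its bilinear version with a cut-off or constant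
function). For `Y`: `y⁻¹ φ_y = (y⁻¹ φ)_y + y⁻² φ`. -/
def DXI_stmt : Prop := ∀ (E : Type) [NormedAddCommGroup E] [NormedSpace ℝ E] [CompleteSpace E]
  (φ : ℍ → E), CD 1 φ → HasCompactSupport φ → ∫ z : ℍ, dX φ z = 0 ∧ ∫ z : ℍ, dY φ z = ∫ z : ℍ, φ z

/-- **Row GRN** (Green's formula; from CA1, CA2, DXI). `∫ k X²φ = -∫ (Xk)(Xφ) = ∫ (X²k) φ`,
`∫ k (-Y²φ + Yφ) = ∫ (Yk)(Yφ) = ∫ (-Y²k + Yk) φ` by DXI for `k • Yφ` and `Yk • φ`. -/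
def GRN_stmt : Prop := ∀ (E : Type) [NormedAddCommGroup E] [NormedSpace ℝ E] [CompleteSpace E]
  (k : ℍ → ℝ) (φ : ℍ → E), CD 2 k → CD 2 φ → HasCompactSupport k →
    ∫ z : ℍ, k z • lap φ z = ∫ z : ℍ, lap k z • φ z

/-- **Row IDN** (the basic identities; from CA1, CA2, DXI). `f = Δu - μu`. Proof. `D` is skew: `∫ (Du) v =
-∫ u Dv` (DXI for `uv`), `X` is skew. `D² = Y² - Y + 1/4`, `D²u = -X²u - (μ - 1/4)u - f`. Second identity: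
`∫ u Δu = ∫ u(-X²u) + ∫ u(-D²u) + ¼∫u² = ∫(Xu)² + ∫(Du)² + ¼∫u²`. First identity: `∫ f Du = ∫ (-X²u) Du + ∫ (-D²u) Du +
(¼ - μ)∫ u Du`; `∫ u Du = 0`, `∫ (D²u) Du = 0` (skew) and `-∫ (X²u) Du = ∫ (Xu) X(Du) = ∫ (Xu)(D(Xu) - Xu) = -∫ (Xu)²`
(as `D X = X D + X`). For `∫(X²u)Du`, `∫ (D²u)Du` only `C²` is needed: they are DXI for the `C¹` functions
`(Xu)(Du)`, `(Xu)²`, `(Du)²`. -/
def IDN_stmt : Prop := ∀ (u : ℍ → ℝ) (μ : ℝ), CD 2 u → HasCompactSupport u →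
  ∫ z : ℍ, dX u z ^ 2 = -∫ z : ℍ, (lap u z - μ * u z) * dD u z ∧
  (∫ z : ℍ, dD u z ^ 2) + ∫ z : ℍ, dX u z ^ 2 = (∫ z : ℍ, u z * lap u z) - (1 / 4) * ∫ z : ℍ, u z ^ 2

/-- `g` and its derivatives along the frame up to order `2` are bounded by `C` -/
def FB (g : ℍ → ℝ) (C : ℝ) : Prop := CD 2 g ∧ ∀ z, |g z| ≤ C ∧ |dX g z| ≤ C ∧ |dY g z| ≤ C ∧
  |dX (dX g) z| ≤ C ∧ |dX (dY g) z| ≤ C ∧ |dY (dX g) z| ≤ C ∧ |dY (dY g) z| ≤ C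

/-- **Row REL** (the three relations; from CA1, CA2, DXI, GRN). Notation `R = μ - 1/4`, `f = Δu - μu`,
`G₁ = (Du)² - Ru²`, `D²u = -X²u - Ru - f`, `XD = DX - X`, `∫ (Yg)F = ∫ g(1-Y)F`, `X`, `D` skew.
(1) `∫(Δg)u² = ∫gΔ(u²)` (GRN), `Δ(u²) = 2uΔu - 2(Xu)² - 2(Yu)² = 2Ru² - 2(Du)² - 2uDu + 2uf - 2(Xu)²`.
(2) for `F` of class `C¹`, compact support: `∫(Δg)F = ∫(Yg)(YF) + ∫(Xg)(XF)` (DXI).
(3) `F = uDu`: `YF = G₁ + uDu - u(f+X²u)`, `YG₁ = G₁ - 4RuDu - 2Du(f+X²u)`, so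
`∫(Yg)G₁ = ∫g(1-Y)G₁ = 4R∫guDu + 2∫gDu(f+X²u)`, `∫(Yg)uDu = -∫gG₁ + ∫gu(f+X²u)`, thus
`∫(Δg)uDu = 4R∫guDu - ∫gG₁ + [2∫gDu(f+X²u) + ∫gu(f+X²u) - ∫(Yg)u(f+X²u) + ∫(Xg)X(uDu)]`.
(4) `F = G₁`: `∫(Δg)G₁ = 4R∫guDu + 4R∫gG₁ + [2∫gDu(f+X²u) - 4R∫gu(f+X²u) - 2∫(Yg)Du(f+X²u) + ∫(Xg)XG₁]`.
(5) the brackets are small: with `G = g` or `Yg`: `∫Guf`, `∫GDu f` by Cauchy-Schwarz;
`∫GuX²u = -∫(XG)uXu - ∫G(Xu)²`; `∫GDuX²u = -∫(XG)DuXu - ∫G(XDu)Xu` and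
`∫G(XDu)Xu = -½∫(YG)(Xu)² - ∫G(Xu)²` (as `XDu = YXu - (3/2)Xu`, `∫G(YXu)Xu = ½∫(1-Y)G·(Xu)²`);
`∫(Xg)uXDu = -∫(YXg)uXu - ∫(Xg)DuXu - ∫(Xg)uXu`; `∫(Xg)DuXDu = -∫(YXg)DuXu - ∫(Xg)(D²u)Xu - ∫(Xg)DuXu` and
`∫(Xg)(X²u)Xu = -½∫(X²g)(Xu)²`. Every term is at most `C·(Nf+NX)(Nu+ND+NX+Nf)` (1+|R|) times a small integer.
All the products which are differentiated are of class `C¹` with compact support (`u`, `g` of class `C²`). -/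
def REL_stmt : Prop := ∀ (g u : ℍ → ℝ) (C μ : ℝ), FB g C → CD 2 u → HasCompactSupport u →
  let R := μ - 1 / 4
  let Nf := Real.sqrt (∫ z : ℍ, (lap u z - μ * u z) ^ 2)
  let NX := Real.sqrt (∫ z : ℍ, dX u z ^ 2)
  let Nu := Real.sqrt (∫ z : ℍ, u z ^ 2)
  let ND := Real.sqrt (∫ z : ℍ, dD u z ^ 2)
  |(∫ z : ℍ, lap g z * u z ^ 2) - (2 * R * (∫ z : ℍ, g z * u z ^ 2) - 2 * (∫ z : ℍ, g z * dD u z ^ 2) -
      2 * ∫ z : ℍ, g z * (u z * dD u z))| ≤ 1000 * C * (1 + |R|) * ((Nf + NX) * (Nu + ND + NX + Nf)) ∧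
  |(∫ z : ℍ, lap g z * (u z * dD u z)) - (4 * R * (∫ z : ℍ, g z * (u z * dD u z)) -
      ∫ z : ℍ, g z * (dD u z ^ 2 - R * u z ^ 2))| ≤
        1000 * C * (1 + |R|) * ((Nf + NX) * (Nu + ND + NX + Nf)) ∧
  |(∫ z : ℍ, lap g z * (dD u z ^ 2 - R * u z ^ 2)) - (4 * R * (∫ z : ℍ, g z * (u z * dD u z)) +
      4 * R * ∫ z : ℍ, g z * (dD u z ^ 2 - R * u z ^ 2))| ≤
        1000 * C * (1 + |R|) * ((Nf + NX) * (Nu + ND + NX + Nf))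

/-! ### Group B: radial kernels -/

/-- **Row TTT** (the point pair invariant). `UpperHalfPlane.cosh_dist`; `dist` is invariant and
continuous; `cosh` is increasing on `[0, ∞)`. -/
def TTT_stmt : Prop := (∀ z w, tt z w = Real.cosh (dist z w) - 1) ∧ (∀ z w, 0 ≤ tt z w) ∧
  (∀ z w, tt z w = tt w z) ∧ (∀ (g : SL(2, ℝ)) (z w : ℍ), tt (g • z) (g • w) = tt z w) ∧
  (Continuous fun p : ℍ × ℍ => tt p.1 p.2) ∧ (∀ s : ℝ, ∃ R : ℝ, 0 ≤ R ∧ ∀ z w, tt z w ≤ s → dist z w ≤ R) ∧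
  (∀ R : ℝ, 0 < R → ∃ s : ℝ, 0 < s ∧ ∀ z w, tt z w < s → dist z w < R) ∧
  (∀ z w : ℍ, ∃ g : SL(2, ℝ), g • z = w)

/-- **Row LAK**. `Δ_z κ(t(z,w)) = (Lκ)(t(z,w))`, `t = ((x-a)²+(y-b)²)/(2yb)` for `w = a + ib`: `t_x = (x-a)/(yb)`,
`t_y = (y-b)/(yb) - t/y`, `y²(t_x² + t_y²) = t(t+2)`, `y²(t_xx + t_yy) = 2(t+1)`. The kernel is smooth, and has compact support
in `z` if `κ` is in `RK` (TTT; `ℍ` is proper). `RK` is closed under the operations used. (If `κ = 0` on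
`[s, ∞)` and `κ` is smooth then `κ' = κ'' = 0` on `[s, ∞)`.) -/
def LAK_stmt : Prop :=
  (∀ (κ : ℝ → ℝ) (n : WithTop ℕ∞) (w : ℍ), ContDiff ℝ n κ → CD n (fun z => κ (tt z w))) ∧
  (∀ (κ : ℝ → ℝ) (w z : ℍ), ContDiff ℝ 2 κ → lap (fun z => κ (tt z w)) z = LL κ (tt z w)) ∧
  (∀ (κ : ℝ → ℝ) (w : ℍ), RK κ → HasCompactSupport (fun z => κ (tt z w))) ∧
  (∀ κ : ℝ → ℝ, RK κ → RK (LL κ)) ∧
  ∀ (κ κ' : ℝ → ℝ) (c c' : ℝ), RK κ → RK κ' → RK (fun t => c * κ t + c' * κ' t)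

/-- **Row CVS** (differentiation under the integral). The kernel `κ(t(z,w))` is smooth in `z`; for `z` in a
small closed disc it is supported in `w` in a compact set, on which its derivatives (of orders `≤ 2`, in `z`) are
bounded and continuous. `hasFDerivAt_integral_of_dominated_of_fderiv_le` twice, continuity of the
second derivative by dominated convergence. The last claim follows from (3) and LAK. -/
def CVS_stmt : Prop := ∀ (E : Type) [NormedAddCommGroup E] [NormedSpace ℝ E] [CompleteSpace E]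
  (κ : ℝ → ℝ) (f : ℍ → E), RK κ → Continuous f →
  CD 2 (conv κ f) ∧
  (∀ (z : ℍ) (v : ℂ), fderiv ℝ (onC (conv κ f)) (z : ℂ) v =
    ∫ w : ℍ, fderiv ℝ (onC (fun z' => κ (tt z' w))) (z : ℂ) v • f w) ∧
  (∀ (z : ℍ) (v v' : ℂ), fderiv ℝ (fderiv ℝ (onC (conv κ f))) (z : ℂ) v v' =
    ∫ w : ℍ, fderiv ℝ (fderiv ℝ (onC (fun z' => κ (tt z' w)))) (z : ℂ) v v' • f w) ∧
  ∀ z : ℍ, lap (conv κ f) z = conv (LL κ) f z

/-- **Row CVB** (basic properties of the convolution; from TTT, INV). (1) invariance: `w = g w'`. (2), (3)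
linearity, the integrands are continuous with compact support. (4) `κ, κ'` may differ for `t < 0`. (5) compact
support. (6) isometric linear maps commute with integrals. (7) boundedness with
`C = ∫ |κ(t(z,w))| dw` (independent of `z`). (8) `conv κ g` is in `Inv` (continuity: CVS or dominated
convergence; the integrand is continuous in `(z,w)` and supported, for `z` in a compact ball, in a compact
set). -/
def CVB_stmt : Prop := ∀ (E : Type) [NormedAddCommGroup E] [NormedSpace ℝ E] [CompleteSpace E],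
  (∀ (κ : ℝ → ℝ) (f : ℍ → E) (g : SL(2, ℝ)) (z : ℍ), conv κ (fun w => f (g • w)) z = conv κ f (g • z)) ∧
  (∀ (κ : ℝ → ℝ) (f₁ f₂ : ℍ → E) (c₁ c₂ : ℝ) (z : ℍ), RK κ → Continuous f₁ → Continuous f₂ →
    conv κ (fun w => c₁ • f₁ w + c₂ • f₂ w) z = c₁ • conv κ f₁ z + c₂ • conv κ f₂ z) ∧
  (∀ (κ κ' : ℝ → ℝ) (f : ℍ → E) (c c' : ℝ) (z : ℍ), RK κ → RK κ' → Continuous f →
    conv (fun t => c * κ t + c' * κ' t) f z = c • conv κ f z + c' • conv κ' f z) ∧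
  (∀ (κ κ' : ℝ → ℝ) (f : ℍ → E) (z : ℍ), (∀ t, 0 ≤ t → κ t = κ' t) → conv κ f z = conv κ' f z) ∧
  (∀ (κ : ℝ → ℝ) (f : ℍ → E), RK κ → HasCompactSupport f → HasCompactSupport (conv κ f)) ∧
  (∀ (κ : ℝ → ℝ) (f : ℍ → E), RK κ → Continuous f → Continuous (conv κ f)) ∧
  (∀ κ : ℝ → ℝ, RK κ → ∃ C : ℝ, ∀ (f : ℍ → E) (m : ℝ), Continuous f → (∀ z, ‖f z‖ ≤ m) →
    ∀ z, ‖conv κ f z‖ ≤ C * m) ∧
  (∀ (Γ : Subgroup SL(2, ℝ)) (κ : ℝ → ℝ) (g : ℍ → ℝ), RK κ → Inv Γ g → Inv Γ (conv κ g))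

/-- **Row EQV** (from CVB (1)). `conv κ φ` is equivariant if `φ` is. (`ρ γ` is a continuous linear isometry
equivalence, `ContinuousLinearEquiv.integral_comp_comm`; over `ℝ`.) -/
def EQV_stmt : Prop := ∀ (Γ : Subgroup SL(2, ℝ)) (V : Type) [NormedAddCommGroup V]
  [InnerProductSpace ℂ V] [CompleteSpace V] (ρ : Γ →* (V ≃ₗᵢ[ℂ] V)) (κ : ℝ → ℝ) (φ : ℍ → V),
  (∀ (γ : Γ) (z : ℍ), φ (γ • z) = ρ γ (φ z)) → ∀ (γ : Γ) (z : ℍ), conv κ φ (γ • z) = ρ γ (conv κ φ z)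

/-- **Row COM** (from GRN, LAK, TTT). `conv κ (Δφ) z = ∫ κ(t(z,w)) Δφ(w) dw = ∫ Δ_w κ(t(z,w)) φ(w) dw = conv (Lκ) φ z`. -/
def COM_stmt : Prop := ∀ (E : Type) [NormedAddCommGroup E] [NormedSpace ℝ E] [CompleteSpace E]
  (κ : ℝ → ℝ) (φ : ℍ → E), RK κ → CD 2 φ → ∀ z, conv κ (lap φ) z = conv (LL κ) φ z

/-- **Row FRB** (the frame derivatives of `conv κ g` are bounded; from CVS, CVB, CA2). The affine maps
`p z = x₀ + y₀ z` are in `SL(2, ℝ)` and `X(F∘p) = (XF)∘p`, `Y(F∘p) = (YF)∘p`. So by CVB (1) every derivative of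
`conv κ g` at `z₀ = p(i)` is the same derivative of `conv κ (g∘p)` at `i`, which by CVS is an integral of `g∘p` against
a fixed compactly supported bounded function of `w`. -/
def FRB_stmt : Prop := ∀ κ : ℝ → ℝ, RK κ → ∃ C : ℝ, 0 ≤ C ∧ ∀ (g : ℍ → ℝ) (m : ℝ), Continuous g →
  (∀ z, |g z| ≤ m) → FB (conv κ g) (C * m)

/-- **Row ROD** (radial equation). `P(t) = ∫_0^t θ`, `ψ'(t) = P(t)/(t(t+2))` for `t ≥ 0`; it is smooth since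
`P(t)/t = ∫_0^1 θ(ts) ds`; multiply `(∫_0^1 θ(ts) ds)/(t+2)` by a smooth cut-off which is `1` on `[-1/2, ∞)` and `0` on
`(-∞, -1]`, so that `ψ'` is smooth on `ℝ`; `P = 0` on `[s, ∞)`; `ψ(t) = -∫_t^s ψ'`. `(t(t+2)ψ')' = P' = θ` on
`t ≥ 0`, i.e. `LL ψ = -θ`. If `-c ≤ P ≤ 0` then `ψ' ≤ 0` on `t ≥ 0`, so `ψ ≥ 0` and `∫_0^∞ ψ = ∫_0^s r |ψ'(r)| dr ≤ c s/2`. -/
def ROD_stmt : Prop := ∀ (θ : ℝ → ℝ) (s : ℝ), ContDiff ℝ ∞ θ → 0 < s → (∀ t, s ≤ t → θ t = 0) →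
  (∫ t in (0 : ℝ)..s, θ t) = 0 → ∃ ψ : ℝ → ℝ, RK ψ ∧ (∀ t, s ≤ t → ψ t = 0) ∧
    (∀ t, 0 ≤ t → LL ψ t = -θ t) ∧ ∀ c : ℝ, (∀ t, 0 ≤ t → -c ≤ (∫ r in (0 : ℝ)..t, θ r) ∧
      (∫ r in (0 : ℝ)..t, θ r) ≤ 0) → (∀ t, 0 ≤ t → 0 ≤ ψ t) ∧ ∫ t in (0 : ℝ)..s, ψ t ≤ c * s / 2

/-- **Row MAS** (mass of radial kernels; from ROD, GRN, LAK, TTT, INV). Proof: for a fixed smooth `κ₁ ≥ 0`, `κ₁ = 0`
on `[1, ∞)`, `κ₁(0) > 0` (a bump function) put `c₀ = ∫ κ₁(t(i,w)) dw / ∫_0^1 κ₁ > 0`; by transitivity and invariance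
the mass `∫ κ(t(z,w)) dw` does not depend on `z`. For `κ` let `θ = κ - (∫_0^s κ/∫_0^s κ₁) κ₁` (`s ≥ 1`);
`LL ψ = -θ` (ROD), so `∫ θ(t(z,w)) dw = -∫ Δ_w ψ(t(z,w)) dw = 0` by GRN with `φ = 1`. (In fact `c₀ = 2π`.) -/
def MAS_stmt : Prop := ∃ c₀ : ℝ, 0 < c₀ ∧ ∀ (κ : ℝ → ℝ) (s : ℝ), ContDiff ℝ ∞ κ → 0 < s →
  (∀ t, s ≤ t → κ t = 0) → ∀ z : ℍ, ∫ w : ℍ, κ (tt z w) = c₀ * ∫ t in (0 : ℝ)..s, κ t

/-- **Row KFM** (from MAS, ROD). Proof: let `κ₁ ≥ 0` be smooth, `κ₁ > 0` on `(-1, 1)`, `κ₁ = 0` on `[1, ∞)` and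
`∫_0^1 κ₁ = 1/c₀`; `fam η t = κ₁(t/η)/η`. Then `∫_0^t fam η = Q(t/η)` with `Q(t) = ∫_0^t κ₁` nondecreasing on
`t ≥ 0`, `Q = 1/c₀` on `[1, ∞)`; `θ = fam η - fam η'` has `∫_0^t θ = Q(t/η) - Q(t/η') ∈ [-1/c₀, 0]`. -/
def KFM_stmt : Prop := ∃ fam : ℝ → ℝ → ℝ, Fam fam

/-- **Row APX** (approximation; from TTT, CVB). `conv (fam η) f z - f z = ∫ fam η (t(z,w)) (f(w) - f(z)) dw`, the kernel is
supported in `t(z,w) < η`, i.e. `dist z w < R(η) → 0`. Uniform continuity on compact sets, resp. on `ℍ`. -/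
def APX_stmt : Prop := ∀ fam : ℝ → ℝ → ℝ, Fam fam →
  (∀ (E : Type) [NormedAddCommGroup E] [NormedSpace ℝ E] [CompleteSpace E] (f : ℍ → E),
    Continuous f → ∀ K : Set ℍ, IsCompact K → ∀ ε : ℝ, 0 < ε → ∃ η₀ : ℝ, 0 < η₀ ∧ ∀ η, 0 < η → η ≤ η₀ →
      ∀ z ∈ K, ‖conv (fam η) f z - f z‖ ≤ ε) ∧
  (∀ f : ℍ → ℝ, UniformContinuous f → ∀ ε : ℝ, 0 < ε → ∃ η₀ : ℝ, 0 < η₀ ∧ ∀ η, 0 < η → η ≤ η₀ →
      ∀ z, |conv (fam η) f z - f z| ≤ ε)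

/-! ### Group C: the compact surface -/

/-- **Row DOM** (a nice fundamental domain). Proof: by `free`, `discrete` every point `z` has a ball `B_z` with
`γ B_z ∩ B_z = ∅` for `γ ≠ 1` (finitely many `γ` move the closed unit ball around `z` to itself up to
intersection, and `γ z ≠ z`). Cover the compact `K` of `cocompact` by `B_1, ..., B_m`, and let
`F = ⋃ (B_i \ ⋃_{j<i} Γ B_j)`. -/
def DOM_stmt : Prop := ∀ Γ : Subgroup SL(2, ℝ), SurfaceGroup Γ → ∃ F : Set ℍ, NiceDom Γ F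

/-- **Row DOB** (from INV). `Γ` is countable (`ℍ` is `σ`-compact, orbits), `F` is a fundamental domain in the
sense of Mathlib, its measure is finite (relatively compact) and positive (`ℍ` is the countable union of
translates). Integrals of invariant functions over any two fundamental domains agree
(`IsFundamentalDomain.setIntegral_eq`, `measure_eq`). Unfolding: `IsFundamentalDomain.integral_eq_tsum`. -/
def DOB_stmt : Prop := ∀ (Γ : Subgroup SL(2, ℝ)) (F : Set ℍ), SurfaceGroup Γ → NiceDom Γ F →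
  Countable Γ ∧ IsFundamentalDomain Γ F (volume : Measure ℍ) ∧ 0 < volume F ∧ volume F < ⊤ ∧
  (∀ F' : Set ℍ, IsFundamentalDomain Γ F' (volume : Measure ℍ) → volume F' = volume F ∧
    ∀ f : ℍ → ℝ, (∀ (γ : Γ) z, f (γ • z) = f z) → ∫ z in F', f z = ∫ z in F, f z) ∧
  ∀ K₁ K₂ : Set ℍ, IsCompact K₁ → IsCompact K₂ → {γ : Γ | ∃ z ∈ K₁, γ • z ∈ K₂}.Finite

/-- **Row BDD**. Continuous `Γ`-invariant functions are bounded and uniformly continuous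
(cocompactness; `Γ` acts by isometries; Lebesgue number on a compact neighbourhood of `K`), and vanish if
the integral of the square over `F` vanishes (INV: open sets have positive measure, DOB). -/
def BDD_stmt : Prop := ∀ (Γ : Subgroup SL(2, ℝ)) (F : Set ℍ) (g : ℍ → ℝ), SurfaceGroup Γ → NiceDom Γ F →
  Inv Γ g → (∃ m : ℝ, ∀ z, |g z| ≤ m) ∧ UniformContinuous g ∧ (∃ z₀, ∀ z, g z ≤ g z₀) ∧
    ((∫ z in F, g z ^ 2) = 0 → ∀ z, g z = 0)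

/-- **Row SYM** (from DOB). `∫_{z∈F} ∫_w G(z,w) = ∑_γ ∫_{z∈F} ∫_{w∈F} G(z,γw) = ∑_γ ∫_{z∈F} ∫_{w∈F} G(γ⁻¹z,w) = ∫_{w∈F} ∫_z G(z,w)`; only
finitely many `γ` contribute (`F` is relatively compact and `G` is proper), on them Fubini for bounded
functions on sets of finite measure. -/
def SYM_stmt : Prop := ∀ (Γ : Subgroup SL(2, ℝ)) (F : Set ℍ) (E : Type) [NormedAddCommGroup E]
  [NormedSpace ℝ E] [CompleteSpace E] (G : ℍ → ℍ → E), SurfaceGroup Γ → NiceDom Γ F →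
  Continuous (Function.uncurry G) → (∀ (γ : Γ) z w, G (γ • z) (γ • w) = G z w) →
  (∃ R : ℝ, ∀ z w, G z w ≠ 0 → dist z w ≤ R) →
    ∫ z in F, ∫ w : ℍ, G z w = ∫ z in F, ∫ w : ℍ, G w z

/-- **Row YNG** (Young's inequality; from SYM, TTT). `‖conv κ φ z‖² ≤ (∫ κ(t(z,w)) dw)(∫ κ(t(z,w)) ‖φ(w)‖² dw)` (Cauchy-Schwarz),
and by SYM for `G(z,w) = κ(t(z,w)) ‖φ(w)‖²`: `∫_F ∫ κ(t(z,w)) ‖φ(w)‖² = ∫_F ‖φ(z)‖² ∫ κ(t(w,z)) dw ≤ m ∫_F ‖φ‖²`. -/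
def YNG_stmt : Prop := ∀ (Γ : Subgroup SL(2, ℝ)) (F : Set ℍ) (E : Type) [NormedAddCommGroup E]
  [NormedSpace ℝ E] [CompleteSpace E] (κ : ℝ → ℝ) (φ : ℍ → E) (m : ℝ), SurfaceGroup Γ → NiceDom Γ F →
  RK κ → (∀ t, 0 ≤ t → 0 ≤ κ t) → (∀ z : ℍ, ∫ w : ℍ, κ (tt z w) ≤ m) → Continuous φ →
  (∀ (γ : Γ) z, ‖φ (γ • z)‖ = ‖φ z‖) → ∫ z in F, ‖conv κ φ z‖ ^ 2 ≤ m ^ 2 * ∫ z in F, ‖φ z‖ ^ 2

/-- **Row SYC** (symmetry of `conv` on `M`; from SYM, TTT, CVB). -/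
def SYC_stmt : Prop := ∀ (Γ : Subgroup SL(2, ℝ)) (F : Set ℍ) (κ : ℝ → ℝ) (f g : ℍ → ℝ),
  SurfaceGroup Γ → NiceDom Γ F → RK κ → Inv Γ f → Inv Γ g →
    ∫ z in F, conv κ f z * g z = ∫ z in F, f z * conv κ g z

/-- **Row FUB** (from TTT, DOB, BDD, CVB, INV). Let `P_w(z) = ∑_{γ∈Γ} κ(t(z, γw))` (locally finite sum, as `Γ` acts
properly discontinuously); `P_w` is in `Inv`, `(z,w) ↦ P_w(z)` is continuous, invariant under `Γ` in both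
variables, hence `w ↦ P_w` is uniformly continuous in the sup norm. `T(w) = α(P_w)` is continuous and
invariant. For `g` in `Inv`, `conv κ g z = ∫_{w∈F} P_w(z) g(w) dw` (unfolding), which is the uniform limit of sums
`∑_i (∫_{F_i} g) P_{w_i}` for partitions of `F` into small pieces, so `α(conv κ g) = ∫_F T g`. -/
def FUB_stmt : Prop := ∀ (Γ : Subgroup SL(2, ℝ)) (F : Set ℍ) (κ : ℝ → ℝ) (α : (ℍ → ℝ) → ℝ),
  SurfaceGroup Γ → NiceDom Γ F → RK κ → BFun Γ α →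
    ∃ T : ℍ → ℝ, Inv Γ T ∧ ∀ g : ℍ → ℝ, Inv Γ g → α (conv κ g) = ∫ z in F, T z * g z

/-- **Row ABS** (from FUB, SYC, CVS, CVB, COM, LAK, BDD, APX, KFM). Let `k = fam η`, `B f = conv k f`, `A f = conv (LL k) f`. `A`, `B`
map `Inv` to itself, are symmetric (SYC), `A B f = Δ(B(B f))`-type identities: for `f` in `Inv`,
`Δ(B f) = A f` (CVS), `B(A f) = B(Δ(B f)) = A(B f)` (COM). Let `p`, `q` be the functions `T` of `δ`, `κ'` for `k`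
(FUB). With `g = B(B f)`, `Δg = A(B f) = B(A f)`: `δ(Δg) = ∫ p A f = ∫ (A p) f`, `δ(g) = ∫ (B p) f` etc., so the hypotheses give
(all `f` in `Inv`, BDD) `A p = 4R B p + 4R B q`, `A q = -B p + 4R B q`. As `∫(Ap)(Bq) = ∫ (Bp)(Aq)` (symmetry and
`AB = BA`) we get `∫(Bp)² + 4R∫(Bq)² = 0`, so `Bp = Bq = 0`, thus `δ(B(B f)) = κ'(B(B f)) = 0` for all `f`. Let `η → 0`:
`B(B f) → f` uniformly (APX, `‖B f‖ ≤ ‖f‖`). -/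
def ABS_stmt : Prop := ∀ (Γ : Subgroup SL(2, ℝ)) (δ κ' : (ℍ → ℝ) → ℝ) (R : ℝ), SurfaceGroup Γ →
  BFun Γ δ → BFun Γ κ' → 0 < R →
  (∀ (κ : ℝ → ℝ) (f : ℍ → ℝ), RK κ → Inv Γ f →
    δ (lap (conv κ f)) = 4 * R * κ' (conv κ f) + 4 * R * δ (conv κ f) ∧
    κ' (lap (conv κ f)) = 4 * R * κ' (conv κ f) - δ (conv κ f)) →
  ∀ f : ℍ → ℝ, Inv Γ f → δ f = 0 ∧ κ' f = 0

/-- **Row MEA** (from FUB, SYC, CVS, CVB, BDD, APX, KFM, TTT). By `Fam.psi`: `conv (fam η) f - conv (fam η') f = -conv (LL ψ) f = -Δ(conv ψ f)`,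
so `α(conv (fam η) f) = α(conv (fam η') f)`; `η' → 0` gives `α(conv (fam η) f) = α(f)`. With `p` from FUB for `fam η` we get
`α(f) = ∫_F p f` for all `f`, and `∫ (B p) f = ∫ p B f = α(B f) = α(f) = ∫ p f`, so `B p = p`. `p` attains its maximum at `z₀`; as
`p(z₀)` is a mean of `p` with positive weights on the ball `t(z₀,w) < η`, `p` is equal to its maximum on this
ball; the set where it is maximal is open and closed, `ℍ` is connected: `p = c`. `f = 1`: `α(1) = c vol F`. -/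
def MEA_stmt : Prop := ∀ (Γ : Subgroup SL(2, ℝ)) (F : Set ℍ) (α : (ℍ → ℝ) → ℝ), SurfaceGroup Γ →
  NiceDom Γ F → BFun Γ α →
  (∀ (κ : ℝ → ℝ) (f : ℍ → ℝ), RK κ → Inv Γ f → α (lap (conv κ f)) = 0) →
  ∀ f : ℍ → ℝ, Inv Γ f → α f * (volume F).toReal = α (fun _ => 1) * ∫ z in F, f z

/-- **Row KLI** (the key inequality; from ABS, MEA, IDN, REL, FRB, CVS, CVB, BDD). Suppose not: for every `j : ℕ`
there are `μ_j ∈ [0,b]`, `u_j` with `∫hu² > δ∫u² + j∫f²`. Let `a_j = ∫u_j² > 0`, `|h| ≤ m`: `∫f²/a_j ≤ m/j → 0`. By IDN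
`∫(Du)²/a_j` is bounded, `∫(Xu)²/a_j → 0`. Take limits along a nonprincipal ultrafilter (`Filter.hyperfilter ℕ`; bounded real
sequences converge along ultrafilters): `R = lim μ_j - 1/4`, `α(g) = lim ∫gu²/a`, `β(g) = lim ∫g(Du)²/a`,
`κ'(g) = lim ∫guDu/a`, `δ' = β - Rα` are in `BFun`. IDN (second identity): `R ≥ 0`, and if `R = 0` then `∫(Du)²/a → 0` so
`β = κ' = 0`. For `g = conv κ f`: REL (FRB gives `FB g C`) passes to the limit: `α(Δg) = 2Rα(g) - 2β(g) - 2κ'(g)`,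
`κ'(Δg) = 4Rκ'(g) - δ'(g)`, `δ'(Δg) = 4Rκ'(g) + 4Rδ'(g)` (`Δg = conv (LL κ) f` is in `Inv`). If `R > 0` then `δ' = κ' = 0`
by ABS. In all cases `α(Δg) = 0`, so by MEA (`α(1) = 1`) `α(h) vol F = ∫_F h = 0`, but `α(h) ≥ δ > 0`. -/
def KLI_stmt : Prop := ∀ (Γ : Subgroup SL(2, ℝ)) (F : Set ℍ) (h : ℍ → ℝ), SurfaceGroup Γ →
  NiceDom Γ F → Inv Γ h → (∫ z in F, h z) = 0 → ∀ b δ : ℝ, 0 < δ → ∃ C : ℝ, 0 ≤ C ∧
  ∀ (μ : ℝ) (u : ℍ → ℝ), 0 ≤ μ → μ ≤ b → CD 2 u → HasCompactSupport u →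
    ∫ z : ℍ, h z * u z ^ 2 ≤ δ * (∫ z : ℍ, u z ^ 2) + C * ∫ z : ℍ, (lap u z - μ * u z) ^ 2

/-! ### Group D: transfer -/

/-- **Row SCM** (matrix coefficients). `c = ∑_{ij} ∑_γ |m_ij(γ)|`, `P = m + c` in `M_k(ℂ[Γ])`. In the regular representation the
form `⟨e, P e⟩` is `≥ 0` and `≤ (s+c)‖e‖²`, hence `‖P e‖ ≤ (s+c)‖e‖` (Cauchy-Schwarz for the form
`⟨e, P f⟩`, `e = P f`) and `‖P^N e‖ ≤ (s+c)^N ‖e‖`, so `regNorm ((P^N)_ij) ≤ (s+c)^N`. By `Strong`, for large `n` all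
`‖ρ_n((P^N)_ij)‖ ≤ (s+c)^N + ε'`, so the self-adjoint operator `P_ρ` on `V^k` satisfies `‖P_ρ^N‖ ≤ k ((s+c)^N + ε')`; for
`N = 2^l`: `‖P_ρ v‖^N ≤ ‖v‖^(N-1) ‖P_ρ^N v‖`, so `‖P_ρ‖ ≤ (k ((s+c)^N + ε'))^{1/N} ≤ s + c + ε` for `N` large, `ε'` small. (`rep` is an
algebra homomorphism, `rep(a*) = rep(a)*`.) -/
def SCM_stmt : Prop := ∀ (G : Type) [Group G] (V : ℕ → Type) [∀ n, NormedAddCommGroup (V n)]
  [∀ n, InnerProductSpace ℂ (V n)] [∀ n, CompleteSpace (V n)] (ρ : ∀ n, G →* (V n ≃ₗᵢ[ℂ] V n)),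
  Strong V ρ → ∀ (k : ℕ) (m : Fin k → Fin k → MonoidAlgebra ℂ G) (s : ℝ),
  (∀ i j γ, (m i j).coeff γ = star ((m j i).coeff γ⁻¹)) →
  (∀ e : Fin k → MonoidAlgebra ℂ G, (∑ i, ∑ j, ip (e i) (m i j * e j)).re ≤ s * ∑ i, l2 (e i) ^ 2) →
  ∀ ε : ℝ, 0 < ε → ∀ᶠ n in atTop, ∀ v : Fin k → V n,
    (∑ i, ∑ j, inner ℂ (v i) (rep (ρ n) (m i j) (v j))).re ≤ (s + ε) * ∑ i, ‖v i‖ ^ 2

/-- **Row PAR** (small cells; from DOB, TTT). `S` = the finite set of the `γ` with `a(z,γw) ≠ 0` for some `z, w ∈ K ⊇ F` (`K`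
compact; `a` proper, DOB), symmetrised. `a` is continuous, `Γ`-invariant and proper, hence uniformly continuous (on the
compact set `K × ⋃_{γ∈S} γK` and a neighbourhood of it); cover `F` by finitely many small balls, take the
differences intersected with `F`, drop the empty ones. For `γ ∉ S` both values of `a` are `0`. -/
def PAR_stmt : Prop := ∀ (Γ : Subgroup SL(2, ℝ)) (F : Set ℍ) (a : ℍ → ℍ → ℝ), SurfaceGroup Γ →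
  NiceDom Γ F → PKer Γ a → ∃ S : Finset Γ, (∀ γ ∈ S, γ⁻¹ ∈ S) ∧
    (∀ (γ : Γ) (z w : ℍ), z ∈ F → w ∈ F → a z (γ • w) ≠ 0 → γ ∈ S) ∧
    ∀ ε : ℝ, 0 < ε → ∃ (k : ℕ) (c : Fin k → Set ℍ) (p : Fin k → ℍ), (∀ i, MeasurableSet (c i)) ∧
      (∀ i, p i ∈ c i) ∧ (⋃ i, c i) = F ∧ (∀ i j, i ≠ j → Disjoint (c i) (c j)) ∧
      ∀ (γ : Γ) (i j : Fin k), ∀ z ∈ c i, ∀ w ∈ c j, |a z (γ • w) - a (p i) (γ • p j)| ≤ ε

/-- negative semidefinite kernels -/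
def NSD (a : ℍ → ℍ → ℝ) : Prop := ∀ (m : ℕ) (q : Fin m → ℍ) (x : Fin m → ℝ),
  ∑ l, ∑ l', x l * x l' * a (q l) (q l') ≤ 0

/-- the coefficients `m_ij = ∑_{γ∈S} a(p_i, γp_j) γ` -/
noncomputable def mC {Γ : Subgroup SL(2, ℝ)} (a : ℍ → ℍ → ℝ) (S : Finset Γ) {k : ℕ}
    (p : Fin k → ℍ) (i j : Fin k) : MonoidAlgebra ℂ Γ :=
  ∑ γ ∈ S, MonoidAlgebra.single γ ((a (p i) (γ • p j) : ℝ) : ℂ)

/-- **Row TR2** (pure algebra). `ip (e_i) (m_ij * e_j) = ∑_{γ,γ'} conj(e_i(γ)) e_j(γ') a(p_i, γγ'⁻¹p_j)` and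
`a(p_i, γγ'⁻¹p_j) = a(γ⁻¹p_i, γ'⁻¹p_j)` (for `γγ'⁻¹ ∉ S` it is `0`). As `a` is real and symmetric, the real part of the double
sum is the form of `NSD` for the real parts plus the form for the imaginary parts of the `e_i(γ)`, at the points
`γ⁻¹p_i` (index set `Fin k × supports`, reindexed by `Fin m`). -/
def TR2_stmt : Prop := ∀ (Γ : Subgroup SL(2, ℝ)) (a : ℍ → ℍ → ℝ) (S : Finset Γ) (k : ℕ)
  (p : Fin k → ℍ), PKer Γ a → NSD a → (∀ γ ∈ S, γ⁻¹ ∈ S) →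
  (∀ (γ : Γ) (i j : Fin k), a (p i) (γ • p j) ≠ 0 → γ ∈ S) →
  (∀ i j (γ : Γ), (mC a S p i j).coeff γ = star ((mC a S p j i).coeff γ⁻¹)) ∧
  ∀ e : Fin k → MonoidAlgebra ℂ Γ, (∑ i, ∑ j, ip (e i) (mC a S p i j * e j)).re ≤ 0

/-- **Row TR3** (from DOB, INV). Proof: `Φ_i = ∫_{c_i} φ`; `‖Φ_i‖² ≤ vol(c_i) ∫_{c_i} ‖φ‖²`, so `∑ ‖Φ_i‖² ≤ vol(F) ∫_F ‖φ‖²`.
`∫_F ∫_ℍ a(z,w) Re⟨φ(z),φ(w)⟩ = ∑_{γ∈S} ∑_{ij} ∫_{c_i} ∫_{c_j} a(z,γw) Re⟨φ(z), ρ(γ)φ(w)⟩` (unfolding, only `γ ∈ S` contribute), which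
differs from `∑_{γ∈S} ∑_{ij} a(p_i,γp_j) Re⟨Φ_i, ρ(γ)Φ_j⟩ = Re ∑_{ij} ⟨Φ_i, rep(m_ij) Φ_j⟩` by at most `ε |S| (∫_F ‖φ‖)²
≤ ε |S| vol(F) ∫_F ‖φ‖²`. (`φ` is bounded on `F`, `F` has finite measure.) -/
def TR3_stmt : Prop := ∀ (Γ : Subgroup SL(2, ℝ)) (F : Set ℍ) (a : ℍ → ℍ → ℝ) (S : Finset Γ)
  (ε : ℝ) (k : ℕ) (c : Fin k → Set ℍ) (p : Fin k → ℍ) (V : Type) [NormedAddCommGroup V]
  [InnerProductSpace ℂ V] [CompleteSpace V] (ρ : Γ →* (V ≃ₗᵢ[ℂ] V)) (φ : ℍ → V),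
  SurfaceGroup Γ → NiceDom Γ F → PKer Γ a → 0 ≤ ε →
  (∀ (γ : Γ) (z w : ℍ), z ∈ F → w ∈ F → a z (γ • w) ≠ 0 → γ ∈ S) →
  (∀ i, MeasurableSet (c i)) → (⋃ i, c i) = F → (∀ i j, i ≠ j → Disjoint (c i) (c j)) →
  (∀ (γ : Γ) (i j : Fin k), ∀ z ∈ c i, ∀ w ∈ c j, |a z (γ • w) - a (p i) (γ • p j)| ≤ ε) →
  Continuous φ → (∀ (γ : Γ) (z : ℍ), φ (γ • z) = ρ γ (φ z)) →
  ∃ Φ : Fin k → V, (∑ i, ‖Φ i‖ ^ 2 ≤ (volume F).toReal * ∫ z in F, ‖φ z‖ ^ 2) ∧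
    (∫ z in F, ∫ w : ℍ, a z w * (inner ℂ (φ z) (φ w)).re) ≤
      (∑ i, ∑ j, inner ℂ (Φ i) (rep ρ (mC a S p i j) (Φ j))).re +
        ε * S.card * (volume F).toReal * ∫ z in F, ‖φ z‖ ^ 2

/-- **Row TRF** (transfer; from PAR, TR2, TR3, SCM, DOB). Take `S` from PAR, then the `ε` of PAR with
`ε |S| vol(F) ≤ ε₀/2`, and SCM with `s = 0` and `ε vol(F) ≤ ε₀/2`. -/
def TRF_stmt : Prop := ∀ (Γ : Subgroup SL(2, ℝ)) (F : Set ℍ) (a : ℍ → ℍ → ℝ), SurfaceGroup Γ →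
  NiceDom Γ F → PKer Γ a → NSD a →
  ∀ (V : ℕ → Type) [∀ n, NormedAddCommGroup (V n)] [∀ n, InnerProductSpace ℂ (V n)]
  [∀ n, CompleteSpace (V n)] (ρ : ∀ n, Γ →* (V n ≃ₗᵢ[ℂ] V n)), Strong V ρ → ∀ ε : ℝ, 0 < ε →
  ∀ᶠ n in atTop, ∀ φ : ℍ → V n, Continuous φ → (∀ (γ : Γ) (z : ℍ), φ (γ • z) = ρ n γ (φ z)) →
    (∫ z in F, ∫ w : ℍ, a z w * (inner ℂ (φ z) (φ w)).re) ≤ ε * ∫ z in F, ‖φ z‖ ^ 2

/-- **Row KER** (from TTT, INV, SYM, CVB). (1) `aK H κ` is continuous (dominated convergence: the integrand is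
continuous and supported in `v` in a compact set, locally uniformly in `(z,w)`), symmetric, invariant, proper.
(2) expand the square. (3) SYM for `G(z,v) = ∫_w H(v) κ(t(z,v)) κ(t(v,w)) Re⟨φ(z),φ(w)⟩ dw`: `∫_{z∈F} ∫_v G(z,v) =
∫_{v∈F} ∫_z G(z,v) = ∫_{v∈F} H(v) Re⟨∫_z κ(t(z,v))φ(z), ∫_w κ(t(v,w))φ(w)⟩`. -/
def KER_stmt : Prop := ∀ (Γ : Subgroup SL(2, ℝ)) (F : Set ℍ) (H : ℍ → ℝ) (κ : ℝ → ℝ),
  SurfaceGroup Γ → NiceDom Γ F → Inv Γ H → RK κ → PKer Γ (aK H κ) ∧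
  (∀ (m : ℕ) (q : Fin m → ℍ) (x : Fin m → ℝ), ∑ l, ∑ l', x l * x l' * aK H κ (q l) (q l') =
    ∫ v : ℍ, H v * (∑ l, x l * κ (tt v (q l))) ^ 2) ∧
  ∀ (V : Type) [NormedAddCommGroup V] [InnerProductSpace ℂ V] [CompleteSpace V]
    (ρ : Γ →* (V ≃ₗᵢ[ℂ] V)) (φ : ℍ → V), Continuous φ → (∀ (γ : Γ) (z : ℍ), φ (γ • z) = ρ γ (φ z)) →
    (∫ z in F, ∫ w : ℍ, aK H κ z w * (inner ℂ (φ z) (φ w)).re) = ∫ z in F, H z * ‖conv κ φ z‖ ^ 2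

/-- **Row EIG** (from YNG, COM, CVB, APX, DOB). For `η' ≤ η` and `ψ` of `Fam.psi`: `conv (fam η) φ - conv (fam η') φ = -conv (LL ψ) φ = -conv ψ (Δφ) = -μ conv ψ φ`,
so by YNG `∫_F ‖conv (fam η) φ - conv (fam η') φ‖² ≤ μ² (η/2)² ∫_F ‖φ‖²`. Let `η' → 0`: `conv (fam η') φ → φ` uniformly on `F`. -/
def EIG_stmt : Prop := ∀ (Γ : Subgroup SL(2, ℝ)) (F : Set ℍ) (fam : ℝ → ℝ → ℝ) (V : Type)
  [NormedAddCommGroup V] [InnerProductSpace ℂ V] [CompleteSpace V] (ρ : Γ →* (V ≃ₗᵢ[ℂ] V))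
  (φ : ℍ → V) (μ η : ℝ), SurfaceGroup Γ → NiceDom Γ F → Fam fam → 0 < η → CD 2 φ →
  (∀ (γ : Γ) (z : ℍ), φ (γ • z) = ρ γ (φ z)) → (∀ z, lap φ z = μ • φ z) →
    ∫ z in F, ‖conv (fam η) φ z - φ z‖ ^ 2 ≤ (μ * η / 2) ^ 2 * ∫ z in F, ‖φ z‖ ^ 2

/-! ### Group E: the theorem -/

/-- **Row FI1** (flat bundles; from KLI, TRF, KER, EIG, KFM, DOM, DOB, BDD, CVS, CVB, COM, LAK, EQV, CA1, CA2). Proof. `F₀` nice (DOM), by DOB integrals over `F` and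
`F₀` agree. Subtract the mean: `∫_{F₀} h = 0`, `|h| ≤ m`. Let `δ > 0` small, `C` from KLI for `h` and `-h` (the same for both), `κ = fam η` with
`b η/2 ≤ δ`, `τ > 0` with `C τ² ≤ δ`, `μ₀ ∈ [0,b]` in a finite `τ`-net. The kernel
`a = aK (h - δ) κ - C aK 1 κ̃`, `κ̃ = LL κ - μ₀ κ`, is in `PKer` and `NSD`: by KER (2) its form is
`∫ (h-δ) u² - C ∫ (Δu - μ₀u)² ≤ 0` (KLI) for `u = ∑ x_l κ(t(·,q_l))`, as `Δu - μ₀u = ∑ x_l κ̃(t(·,q_l))` (LAK). For an eigensection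
with eigenvalue `μ`, `|μ - μ₀| ≤ τ`: `conv κ̃ φ = (μ - μ₀) conv κ φ` (COM), thus by TRF, KER
`∫_F h ‖Qφ‖² ≤ (δ + Cτ²) ∫_F ‖Qφ‖² + δ ∫_F ‖φ‖²`, `Qφ = conv κ φ`, and `∫_F ‖Qφ - φ‖² ≤ δ² ∫_F ‖φ‖²` (EIG). So
`∫_F h ‖φ‖² ≤ (2δ(1+δ)² + δ + m(2δ+δ²)) ∫_F ‖φ‖²`. The same for `-h`. -/
def FI1_stmt : Prop := ∀ Γ : Subgroup SL(2, ℝ), SurfaceGroup Γ →
  ∀ (V : ℕ → Type) [∀ n, NormedAddCommGroup (V n)] [∀ n, InnerProductSpace ℂ (V n)]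
  [∀ n, CompleteSpace (V n)] (ρ : ∀ n, Γ →* (V n ≃ₗᵢ[ℂ] V n)),
  (∀ (a : MonoidAlgebra ℂ Γ) (ε : ℝ), 0 < ε → ∀ᶠ n in atTop, ‖rep (ρ n) a‖ ≤ regNorm a + ε) →
  ∀ (F : Set ℍ) (h : ℍ → ℝ), IsFundamentalDomain Γ F (volume : Measure ℍ) → Continuous h →
  (∀ (γ : Γ) (z : ℍ), h (γ • z) = h z) → ∀ b ε : ℝ, 0 < ε →
  ∀ᶠ n in atTop, ∀ (μ : ℝ) (φ : ℍ → V n), 0 ≤ μ → μ ≤ b → CD ∞ φ →
    (∀ (γ : Γ) (z : ℍ), φ (γ • z) = ρ n γ (φ z)) → (∀ z, lap φ z = μ • φ z) →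
    |(∫ z in F, h z * ‖φ z‖ ^ 2) -
        (∫ z in F, h z) / (volume F).toReal * ∫ z in F, ‖φ z‖ ^ 2| ≤ ε * ∫ z in F, ‖φ z‖ ^ 2

/-- **Row FI2** (covers; from FI1). Apply FI1 to the subspace `V_n` of the vectors of sum `0` (finite dimensional, so
complete) with the restriction of `permRep (σ n)`; `φ` as a map into `EuclideanSpace ℂ (Fin N)`; `CD`, `lap`
are componentwise. -/
def FI2_stmt : Prop := ∀ Γ : Subgroup SL(2, ℝ), SurfaceGroup Γ →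
  ∀ (N : ℕ → ℕ) (σ : ∀ n, Γ →* Equiv.Perm (Fin (N n))),
  (∀ (a : MonoidAlgebra ℂ Γ) (ε : ℝ), 0 < ε → ∀ᶠ n in atTop,
    ∀ v : EuclideanSpace ℂ (Fin (N n)), ∑ i, v i = 0 → ‖rep (permRep (σ n)) a v‖ ≤ (regNorm a + ε) * ‖v‖) →
  ∀ (F : Set ℍ) (h : ℍ → ℝ), IsFundamentalDomain Γ F (volume : Measure ℍ) → Continuous h →
  (∀ (γ : Γ) (z : ℍ), h (γ • z) = h z) → ∀ b ε : ℝ, 0 < ε →
  ∀ᶠ n in atTop, ∀ (μ : ℝ) (φ : ℍ → Fin (N n) → ℂ), 0 ≤ μ → μ ≤ b →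
    (∀ i, CD ∞ (fun z => φ z i)) → (∀ (γ : Γ) (z : ℍ) (i : Fin (N n)), φ (γ • z) (σ n γ i) = φ z i) →
    (∀ z, ∑ i, φ z i = 0) → (∀ i z, lap (fun z => φ z i) z = μ • φ z i) →
    |(∫ z in F, h z * ∑ i, ‖φ z i‖ ^ 2) -
        (∫ z in F, h z) / (volume F).toReal * ∫ z in F, ∑ i, ‖φ z i‖ ^ 2| ≤
      ε * ∫ z in F, ∑ i, ‖φ z i‖ ^ 2

end Pool.Agent.QU
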