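import Mathlib

/-!
# Laplace eigensections on compact hyperbolic surfaces: the notions of the theorem

`ℍ` is the upper half-plane with the hyperbolic measure `dx dy / y²` (`volume` in Mathlib) and the
action of `SL(2, ℝ)` by Möbius transformations.
-/

open scoped MatrixGroups ContDiff Topology UpperHalfPlane
open UpperHalfPlane MeasureTheory Filter Set

namespace Pool.Agent.QU

/-- `Γ` is the group of a closed hyperbolic surface `Γ \ ℍ`: it is cocompact and acts properly
discontinuously and freely on `ℍ`. -/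
structure SurfaceGroup (Γ : Subgroup SL(2, ℝ)) : Prop where
  cocompact : ∃ K : Set ℍ, IsCompact K ∧ ∀ z : ℍ, ∃ γ : Γ, γ • z ∈ K
  discrete : ∀ K : Set ℍ, IsCompact K → {γ : Γ | ∃ z ∈ K, γ • z ∈ K}.Finite
  free : ∀ (γ : Γ) (z : ℍ), γ • z = z → γ = 1

section functions

variable {E : Type} [NormedAddCommGroup E] [NormedSpace ℝ E]

/-- a function on `ℍ` as a function of the complex variable `x + i y`, `y > 0` -/
noncomputable def onC (φ : ℍ → E) (w : ℂ) : E := φ (ofComplex w)

/-- `φ` is `n` times continuously differentiable on `ℍ` (as a function of `x`, `y`) -/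
def CD (n : WithTop ℕ∞) (φ : ℍ → E) : Prop := ContDiffOn ℝ n (onC φ) {w : ℂ | 0 < w.im}

/-- the hyperbolic Laplace operator `Δ = -y² (∂²/∂x² + ∂²/∂y²)` -/
noncomputable def lap (φ : ℍ → E) (z : ℍ) : E :=
  -(z.im ^ 2) • (fderiv ℝ (fderiv ℝ (onC φ)) (z : ℂ) 1 1 +
    fderiv ℝ (fderiv ℝ (onC φ)) (z : ℂ) Complex.I Complex.I)

end functions

section strong

variable {Γ : Type} [Group Γ]

/-- the `ℓ²` norm of a finitely supported function on `Γ` -/
noncomputable def l2 (u : MonoidAlgebra ℂ Γ) : ℝ :=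
  Real.sqrt (∑ γ ∈ u.coeff.support, ‖u.coeff γ‖ ^ 2)

/-- the norm of the operator `u ↦ a * u` on `ℓ²(Γ)`: the norm of the element `a` of the group algebra
in the (left) regular representation -/
noncomputable def regNorm (a : MonoidAlgebra ℂ Γ) : ℝ :=
  sInf {c : ℝ | 0 ≤ c ∧ ∀ u : MonoidAlgebra ℂ Γ, l2 (a * u) ≤ c * l2 u}

variable {V : Type} [NormedAddCommGroup V] [InnerProductSpace ℂ V]

/-- the operator `∑ a(γ) ρ(γ)` on the space `V` of the unitary representation `ρ` -/
noncomputable def rep (ρ : Γ →* (V ≃ₗᵢ[ℂ] V)) (a : MonoidAlgebra ℂ Γ) : V →L[ℂ] V :=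
  ∑ γ ∈ a.coeff.support, a.coeff γ • ((ρ γ).toLinearIsometry.toContinuousLinearMap : V →L[ℂ] V)

end strong

/-- the unitary representation of `Γ` on `ℂ^N` given by permutations:
`(permRep σ γ v) i = v (σ(γ)⁻¹ i)` -/
noncomputable def permRep {Γ : Type} [Group Γ] {N : ℕ} (σ : Γ →* Equiv.Perm (Fin N)) :
    Γ →* (EuclideanSpace ℂ (Fin N) ≃ₗᵢ[ℂ] EuclideanSpace ℂ (Fin N)) where
  toFun γ := LinearIsometryEquiv.piLpCongrLeft 2 ℂ ℂ (σ γ)
  map_one' := by
    ext v i
    rw [map_one]
    rfl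
  map_mul' γ δ := by
    ext v i
    rw [map_mul]
    rfl

end Pool.Agent.QU
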