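import Pool.Agent.helper62.QU.Spec

open scoped MatrixGroups ContDiff Topology UpperHalfPlane
open UpperHalfPlane MeasureTheory Filter Set

namespace Pool.Agent.QU

/-- the form of `FI1` with windows `[0, B n]`, `B n → ∞` -/
def FI3_stmt : Prop := ∀ Γ : Subgroup SL(2, ℝ), SurfaceGroup Γ →
  ∀ (V : ℕ → Type) [∀ n, NormedAddCommGroup (V n)] [∀ n, InnerProductSpace ℂ (V n)]
  [∀ n, CompleteSpace (V n)] (ρ : ∀ n, Γ →* (V n ≃ₗᵢ[ℂ] V n)),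
  (∀ (a : MonoidAlgebra ℂ Γ) (ε : ℝ), 0 < ε → ∀ᶠ n in atTop, ‖rep (ρ n) a‖ ≤ regNorm a + ε) →
  ∃ B : ℕ → ℝ, Tendsto B atTop atTop ∧
  ∀ (F : Set ℍ) (h : ℍ → ℝ), IsFundamentalDomain Γ F (volume : Measure ℍ) → Continuous h →
  (∀ (γ : Γ) (z : ℍ), h (γ • z) = h z) → ∀ ε : ℝ, 0 < ε →
  ∀ᶠ n in atTop, ∀ (μ : ℝ) (φ : ℍ → V n), 0 ≤ μ → μ ≤ B n → CD ∞ φ →
    (∀ (γ : Γ) (z : ℍ), φ (γ • z) = ρ n γ (φ z)) → (∀ z, lap φ z = μ • φ z) →
    |(∫ z in F, h z * ‖φ z‖ ^ 2) -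
        (∫ z in F, h z) / (volume F).toReal * ∫ z in F, ‖φ z‖ ^ 2| ≤ ε * ∫ z in F, ‖φ z‖ ^ 2

theorem FI3_dense (Γ : Subgroup SL(2, ℝ)) (hΓ : SurfaceGroup Γ) :
    ∃ hs : ℕ → ℍ → ℝ, (∀ k, Inv Γ (hs k)) ∧
      ∀ h : ℍ → ℝ, Inv Γ h → ∀ ε : ℝ, 0 < ε → ∃ k, ∀ z, |h z - hs k z| ≤ ε := by
  obtain ⟨K, hK, hcov⟩ := hΓ.cocompact
  have : CompactSpace K := isCompact_iff_compactSpace.mp hK
  let r : {h : ℍ → ℝ // Inv Γ h} → C(K, ℝ) := fun h =>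
    ⟨fun x => h.1 x.1, h.2.1.comp continuous_subtype_val⟩
  have : Nonempty (range r) := ⟨⟨r ⟨fun _ => 0, continuous_const, fun _ _ => rfl⟩, mem_range_self _⟩⟩
  obtain ⟨u, hu⟩ := TopologicalSpace.exists_dense_seq (range r)
  choose hs hhs using fun k => (u k).2
  refine ⟨fun k => (hs k).1, fun k => (hs k).2, fun h hh ε hε => ?_⟩
  have hm : (⟨r ⟨h, hh⟩, mem_range_self _⟩ : range r) ∈ closure (range u) := hu _
  obtain ⟨y, ⟨k, rfl⟩, hk⟩ := Metric.mem_closure_iff.mp hm ε hε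
  refine ⟨k, fun z => ?_⟩
  obtain ⟨γ, hγ⟩ := hcov z
  have e1 : h z = h (γ • z) := (hh.2 γ z).symm
  have e2 : (hs k).1 z = (hs k).1 (γ • z) := ((hs k).2.2 γ z).symm
  show |h z - (hs k).1 z| ≤ ε
  rw [e1, e2]
  have h3 : dist (r ⟨h, hh⟩) (u k : C(K, ℝ)) < ε := hk
  rw [← hhs k] at h3
  have h4 := (ContinuousMap.dist_apply_le_dist (f := r ⟨h, hh⟩) (g := r (hs k)) ⟨γ • z, hγ⟩).trans h3.le
  rw [Real.dist_eq] at h4
  exact h4

theorem FI3_diag (P : ℕ → ℕ → Prop) (h : ∀ k, ∀ᶠ n in atTop, P k n) :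
    ∃ B : ℕ → ℕ, Tendsto B atTop atTop ∧ ∀ᶠ n in atTop, P (B n) n := by
  choose N hN using fun k => eventually_atTop.mp (h k)
  refine ⟨fun n => Nat.findGreatest (fun k => N k ≤ n) n, ?_, ?_⟩
  · refine tendsto_atTop.mpr fun k => ?_
    refine eventually_atTop.mpr ⟨max k (N k), fun n hn => ?_⟩
    exact Nat.le_findGreatest ((le_max_left _ _).trans hn) ((le_max_right _ _).trans hn)
  · refine eventually_atTop.mpr ⟨N 0, fun n hn => ?_⟩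
    have : N (Nat.findGreatest (fun k => N k ≤ n) n) ≤ n :=
      Nat.findGreatest_spec (P := fun k => N k ≤ n) (Nat.zero_le n) hn
    exact hN _ n this

theorem FI3_fb (F : Set ℍ) (g w : ℍ → ℝ) (m : ℝ) (hg : ∀ z, |g z| ≤ m)
    (hw : ∀ z, 0 ≤ w z) (hwi : IntegrableOn w F (volume : Measure ℍ)) :
    |∫ z in F, g z * w z| ≤ m * ∫ z in F, w z := by
  have e : m * ∫ z in F, w z = ∫ z in F, m * w z := (integral_const_mul m w).symm
  rw [e]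
  have := norm_integral_le_of_norm_le (μ := (volume : Measure ℍ).restrict F)
    (f := fun z => g z * w z) (hwi.const_mul m) (Eventually.of_forall fun z => by
      rw [Real.norm_eq_abs, abs_mul, abs_of_nonneg (hw z)]
      exact mul_le_mul_of_nonneg_right (hg z) (hw z))
  rwa [Real.norm_eq_abs] at this

theorem FI3_int {F : Set ℍ} (hK : ∃ K : Set ℍ, IsCompact K ∧ F ⊆ K)
    {g : ℍ → ℝ} (hg : Continuous g) : IntegrableOn g F (volume : Measure ℍ) := by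
  obtain ⟨K, hK, hFK⟩ := hK
  exact (hg.continuousOn.integrableOn_compact hK).mono_set hFK

theorem FI3_est {F : Set ℍ} (hK : ∃ K : Set ℍ, IsCompact K ∧ F ⊆ K)
    (hv : 0 < (volume F).toReal)
    {h g w : ℍ → ℝ} (hh : Continuous h) (hg : Continuous g) (hwc : Continuous w)
    (hw : ∀ z, 0 ≤ w z) {e : ℝ} (hd : ∀ z, |h z - g z| ≤ e)
    (hm : |(∫ z in F, g z * w z) - (∫ z in F, g z) / (volume F).toReal * ∫ z in F, w z| ≤
      e * ∫ z in F, w z) :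
    |(∫ z in F, h z * w z) - (∫ z in F, h z) / (volume F).toReal * ∫ z in F, w z| ≤
      3 * e * ∫ z in F, w z := by
  have i1 := FI3_int (g := fun z => h z * w z) hK (hh.mul hwc)
  have i2 := FI3_int (g := fun z => g z * w z) hK (hg.mul hwc)
  have a1 : |(∫ z in F, h z * w z) - ∫ z in F, g z * w z| ≤ e * ∫ z in F, w z := by
    rw [← integral_sub i1 i2]
    have := FI3_fb F (fun z => h z - g z) w e hd hw (FI3_int hK hwc)
    refine le_trans (le_of_eq ?_) this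
    congr 2
    ext z
    ring
  have a2 : |(∫ z in F, h z) - ∫ z in F, g z| ≤ e * (volume F).toReal := by
    rw [← integral_sub (FI3_int hK hh) (FI3_int hK hg)]
    have := FI3_fb F (fun z => h z - g z) (fun _ => 1) e hd (fun _ => zero_le_one)
      (FI3_int hK continuous_const)
    simp only [mul_one] at this
    refine this.trans (le_of_eq ?_)
    congr 1
    simp [Measure.real]
  have hW : 0 ≤ ∫ z in F, w z := integral_nonneg hw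
  have a3 : |(∫ z in F, h z) / (volume F).toReal * (∫ z in F, w z) -
      (∫ z in F, g z) / (volume F).toReal * ∫ z in F, w z| ≤ e * ∫ z in F, w z := by
    rw [← sub_mul, ← sub_div, abs_mul, abs_of_nonneg hW, abs_div, abs_of_pos hv]
    refine mul_le_mul_of_nonneg_right ?_ hW
    rw [div_le_iff₀ hv]
    exact a2
  rw [abs_le] at *
  constructor <;> linarith [a1.1, a1.2, a3.1, a3.2, hm.1, hm.2]

theorem FI3 (h1 : CA1_stmt) (h2 : DOM_stmt) (h3 : DOB_stmt) (h4 : FI1_stmt) : FI3_stmt := by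
  intro Γ hΓ V _ _ _ ρ hρ
  obtain ⟨F₀, hF₀⟩ := h2 Γ hΓ
  obtain ⟨-, hfd, hv, hv2, htr, -⟩ := h3 Γ F₀ hΓ hF₀
  obtain ⟨hs, hsI, hsd⟩ := FI3_dense Γ hΓ
  have hvr : 0 < (volume F₀).toReal := ENNReal.toReal_pos hv.ne' hv2.ne
  obtain ⟨B, hB, hP⟩ := FI3_diag (fun k n => ∀ j ∈ {j : ℕ | j ≤ k}, ∀ (μ : ℝ) (φ : ℍ → V n),
    0 ≤ μ → μ ≤ k → CD ∞ φ → (∀ (γ : Γ) (z : ℍ), φ (γ • z) = ρ n γ (φ z)) →
    (∀ z, lap φ z = μ • φ z) →
    |(∫ z in F₀, hs j z * ‖φ z‖ ^ 2) -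
        (∫ z in F₀, hs j z) / (volume F₀).toReal * ∫ z in F₀, ‖φ z‖ ^ 2| ≤
      (1 / ((k : ℝ) + 1)) * ∫ z in F₀, ‖φ z‖ ^ 2) (by
    intro k
    rw [Filter.eventually_all_finite (Set.finite_le_nat k)]
    intro j _
    exact h4 Γ hΓ V ρ hρ F₀ (hs j) hfd (hsI j).1 (hsI j).2 k (1 / ((k : ℝ) + 1))
      (by positivity))
  refine ⟨fun n => (B n : ℝ), tendsto_natCast_atTop_atTop.comp hB, ?_⟩
  intro F h hF hc hi ε hε
  obtain ⟨j, hj⟩ := hsd h ⟨hc, hi⟩ (ε / 3) (by positivity)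
  obtain ⟨k₀, hk₀⟩ := exists_nat_gt (3 / ε)
  filter_upwards [hP, hB.eventually_ge_atTop (max j k₀)] with n hn hBn
  intro μ φ hμ0 hμ hφ hρφ hlap
  have hφc : Continuous φ := ((h1 (V n)).1 φ).mp ((h1 (V n)).2.1 φ 0 ∞ (by simp) hφ)
  have hj' := hn j ((le_max_left _ _).trans hBn) μ φ hμ0 hμ hφ hρφ hlap
  have hw0 : ∀ z, 0 ≤ ‖φ z‖ ^ 2 := fun z => by positivity
  have hW : 0 ≤ ∫ z in F₀, ‖φ z‖ ^ 2 := integral_nonneg hw0
  have hsm : 1 / ((B n : ℝ) + 1) ≤ ε / 3 := by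
    have hb : (k₀ : ℝ) ≤ B n := by exact_mod_cast (le_max_right _ _).trans hBn
    rw [div_le_div_iff₀ (by positivity) (by norm_num)]
    have h7 : 3 / ε < (B n : ℝ) + 1 := by linarith
    rw [div_lt_iff₀ hε] at h7
    linarith
  have hfin := FI3_est (w := fun z => ‖φ z‖ ^ 2) hF₀.rel hvr hc (hsI j).1 (hφc.norm.pow 2) hw0 hj
    (hj'.trans (mul_le_mul_of_nonneg_right hsm hW))
  obtain ⟨v1, v2⟩ := htr F hF
  have inv1 : ∀ (γ : Γ) z, ‖φ (γ • z)‖ ^ 2 = ‖φ z‖ ^ 2 := fun γ z => by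
    rw [hρφ, LinearIsometryEquiv.norm_map]
  rw [v1, v2 h hi, v2 (fun z => ‖φ z‖ ^ 2) inv1,
    v2 (fun z => h z * ‖φ z‖ ^ 2) (fun γ z => by rw [hi, inv1])]
  refine hfin.trans (le_of_eq ?_)
  ring

end Pool.Agent.QU
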